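import Pool.Agent.Q71.AB.P1
import Pool.Agent.Y127.G.SDefs

/-!
# Symplectic pieces of the Tate module and small pieces: definitions
-/

set_option autoImplicit false

namespace Pool.Agent.Q71.AB.P

open Module Pool.Agent.Y127.G

section

variable {K : Type} [Field K] {V : Type} [AddCommGroup V] [Module K V] {V' : Type}
  [AddCommGroup V'] [Module K V'] {Γ : Type} [Group Γ]

/-- the form `B` is nondegenerate and is multiplied by the values of `μ` -/
def FormUpTo (r : Γ → V → V) (μ : Γ →* Kˣ) (B : V →ₗ[K] V →ₗ[K] K) : Prop :=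
  (∀ x, (∀ y, B x y = 0) → x = 0) ∧ ∀ g x y, B (r g x) (r g y) = (μ g : K) * B x y

/-- The representation has a nondegenerate alternating form with the multiplier `χ`, and it is
irreducible under all subgroups of finite index. -/
structure IsSymplectic (χ : Γ →* Kˣ) (r : Γ → V → V) : Prop where
  form : ∃ B : V →ₗ[K] V →ₗ[K] K, (∀ x, B x x = 0) ∧ FormUpTo r χ B
  irreducible : ∀ Δ : Subgroup Γ, Δ.FiniteIndex → ∀ U : Submodule K V,
    (∀ g ∈ Δ, ∀ x ∈ U, r g x ∈ U) → U = ⊥ ∨ U = ⊤

/-- `ψ` is equivariant under the elements of `Δ`. -/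
def EqvOn (Δ : Subgroup Γ) (r : Γ → V → V) (r' : Γ → V' → V') (ψ : V → V') : Prop :=
  ∀ g ∈ Δ, ∀ x, ψ (r g x) = r' g (ψ x)

/-- an isomorphism which is equivariant under a subgroup of finite index -/
def PotIso (K : Type) [Field K] {V : Type} [AddCommGroup V] [Module K V] {V' : Type}
    [AddCommGroup V'] [Module K V'] {Γ : Type} [Group Γ] (r : Γ → V → V) (r' : Γ → V' → V') :
    Prop :=
  ∃ Δ : Subgroup Γ, Δ.FiniteIndex ∧ ∃ ψ : V ≃ₗ[K] V', EqvOn Δ r r' ψ

/-- `B (x, y) = s B (y, x)` for a nondegenerate form which is invariant up to a character. -/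
def Form (s : K) (r : Γ → V → V) : Prop :=
  ∃ (μ : Γ →* Kˣ) (B : V →ₗ[K] V →ₗ[K] K), (∀ x y, B x y = s * B y x) ∧
    FormUpTo r μ B

/-- `f - 1` -/
def dif (f : V →ₗ[K] V) : V →ₗ[K] V := f - LinearMap.id

/-- the rank -/
noncomputable def rk (f : V →ₗ[K] V) : ℕ := finrank K (LinearMap.range f)

/-- `f` is a transvection: `(f - 1) ^ 2 = 0` and `f - 1` has rank one. -/
def Transvection (f : V →ₗ[K] V) : Prop :=
  (∀ x, dif f (dif f x) = 0) ∧ rk (dif f) = 1

end

variable {K : Type} [Field K] {Γ : Type} [Group Γ]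

/-- `A` is the direct sum of copies of the `T j`, under a subgroup of finite index. -/
def IsSumOf {J : Type} (T : J → FRep K Γ) (A : FRep K Γ) : Prop :=
  ∃ (P : Type) (_ : Fintype P) (c : P → J) (e : A.V ≃ₗ[K] ∀ p, (T (c p)).V) (Δ : Subgroup Γ),
    Δ.FiniteIndex ∧ ∀ p, EqvOn Δ (act A) (act (T (c p))) fun x => e x p

/-- `B` is the sum of the images of finitely many representations `M a` with the property `P`, by maps
which are equivariant under subgroups of finite index. -/
def HasPieces (P : FRep K Γ → Prop) (B : FRep K Γ) : Prop :=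
  ∃ (m : ℕ) (M : Fin m → FRep K Γ), (∀ a, P (M a)) ∧ ∀ x : B.V, x ∈ Submodule.span K
    {x | ∃ a, ∃ f : (M a).V →ₗ[K] B.V, (∃ Δ : Subgroup Γ, Δ.FiniteIndex ∧
      EqvOn Δ (act (M a)) (act B) f) ∧ ∃ y, f y = x}

/-- the dimension -/
noncomputable def dim (M : FRep K Γ) : ℕ := finrank K M.V

/-- The dimension of `U` is small in comparison with the one of `T`: `dim U < dim T` if `U` has an
alternating form, `dim U ≤ dim T` if it has a symmetric form; without forms
`2 (dim U) ^ 2 < dim T (dim T + 1)`. -/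
def SmallDim (T U : FRep K Γ) : Prop :=
  (Form (-1 : K) (act U) ∧ dim U < dim T) ∨ (Form (1 : K) (act U) ∧ dim U ≤ dim T) ∨
    2 * dim U ^ 2 < dim T * (dim T + 1)

/-- Some `F` (a Frobenius element) acts on `T` with the slopes `h + c` and `h - c`, once each, and
`h`, where `c ≠ 0`. -/
def ThreeSlopes (T : FRep K Γ) : Prop :=
  ∃ (v : Additive Kˣ →+ ℚ) (F : Γ) (h c : ℚ), c ≠ 0 ∧ K3Slopes v (op T F) h c

/-- Some `F` acts on `T` with three slopes as above, and on `U` with less than `dim T - 2` pairs of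
slopes with the difference `c`; or the slopes of some `F` on `T` are between `a` and `b`, the
slope `b` occurs `m` times, and there are less than `m (m + 1) / 2` pairs of slopes on `U` with the
difference `b - a`. -/
def FewSlopes (T U : FRep K Γ) : Prop :=
  ∃ (v : Additive Kˣ →+ ℚ) (F : Γ),
    (∃ h c : ℚ, c ≠ 0 ∧ K3Slopes v (op T F) h c ∧ gaps (slopes v (op U F)) c + 2 < dim T) ∨
    ∃ a b : ℚ, (∀ s ∈ slopes v (op T F), a ≤ s ∧ s ≤ b) ∧ a ∈ slopes v (op T F) ∧
      2 * gaps (slopes v (op U F)) (b - a) <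
        (slopes v (op T F)).count b * ((slopes v (op T F)).count b + 1)

/-- Some `g` (in the inertia group of a place) acts on `T` by a transvection. -/
def HasTransvection (T : FRep K Γ) : Prop := ∃ g : Γ, Transvection (op T g)

/-- Some `g` (in the inertia group of a place) acts with `(g - 1) ^ 2 = 0` on `T`, it is unipotent on
`U`, and `2 (d₁ ^ 2 + 2 d₂ dim U) < d (d + 1)` where `d` is the rank of `g - 1` on `T` and `d₁`, `d₂`
are the ranks of `g - 1` and `(g - 1) ^ 2` on `U`. -/
def SmallInertia (T U : FRep K Γ) : Prop :=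
  ∃ g : Γ, (∀ x, dif (op T g) (dif (op T g) x) = 0) ∧ (∃ k : ℕ, ∀ x, (dif (op U g))^[k] x = 0) ∧
    2 * (rk (dif (op U g)) ^ 2 + 2 * rk (dif (op U g) ∘ₗ dif (op U g)) * dim U) <
      rk (dif (op T g)) * (rk (dif (op T g)) + 1)

end Pool.Agent.Q71.AB.P
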