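import Pool.Agent.Q71.AB.Fin
import Pool.Agent.Q71.AB.P2

/-!
# The two sets of definitions
-/

set_option linter.unusedSectionVars false

namespace Pool.Agent.Q71.AB

open Module Finset Function Pool.Agent.TH118.SG Pool.Agent.TH125.Gal Pool.Agent.Y127.G
  Pool.Agent.Y127.C Pool.Agent.Q71.SP

variable {K : Type} [Field K] {Γ : Type} [Group Γ] {χ : Γ →* Kˣ}

theorem brg_symp {M : FRep K Γ} (h : P.IsSymplectic χ (P.act M)) : IsSymplectic χ M := by
  obtain ⟨⟨B, h1, h2, h3⟩, h4⟩ := h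
  exact ⟨⟨B, h1, h2, h3⟩, h4⟩

theorem brg_iso {M M' : FRep K Γ} (h : PotIso M M') : P.PotIso K (P.act M) (P.act M') := by
  obtain ⟨Δ, h1, ψ, h2⟩ := h
  exact ⟨Δ, h1, ψ, h2⟩

theorem brg_sum {J : Type} {T : J → FRep K Γ} {A : FRep K Γ} (h : P.IsSumOf T A) :
    IsSumOf T A := by
  obtain ⟨P, hP, c, e, Δ, h1, h2⟩ := h
  exact ⟨P, hP, c, e, Δ, h1, fun g hg x p => h2 p g hg x⟩

theorem brg_pieces {P' Q : FRep K Γ → Prop} {B : FRep K Γ} (h : P.HasPieces P' B)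
    (hPQ : ∀ U, P' U → Q U) : HasPieces Q B := by
  obtain ⟨m, M, h1, h2⟩ := h
  exact ⟨m, M, fun a => hPQ _ (h1 a), h2⟩

theorem brg_cycles {A B : FRep K Γ} {C : ∀ a, Submodule K (P.Cl K (A.V × B.V) a)}
    {C' : ∀ a, Submodule K (P.Cl K B.V a)} (h : P.Cycles χ (P.act A) (P.act B) C C') :
    Cycles (χ := χ) (A := A) (B := B) (C := C) (C' := C') where
  fundamental := h.fundamental
  divisors := h.divisors
  intersection := h.intersection
  pull := h.pull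
  restrict := h.restrict

variable [CharZero K] [IsAlgClosed K]

theorem brg_dim {T U : FRep K Γ} (h : P.SmallDim T U) : SpSmall T U := by
  rcases h with ⟨⟨μ, B, h1, h2, h3⟩, h4⟩ | ⟨⟨μ, B, h1, h2, h3⟩, h4⟩ | h
  · exact sp_of_dim (Or.inl ⟨⟨μ, B, h1, h2, h3⟩, h4⟩)
  · exact sp_of_dim (Or.inr (Or.inl ⟨⟨μ, B, h1, h2, h3⟩, h4⟩))
  · exact sp_of_dim (Or.inr (Or.inr h))

theorem brg_slopes {T U : FRep K Γ} (h : P.FewSlopes T U) : SpSmall T U := sp_of_slopes h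

theorem brg_inertia {T U : FRep K Γ} (h : P.SmallInertia T U) : SpSmall T U := by
  obtain ⟨g, h1, ⟨k, h2⟩, h3⟩ := h
  refine sp_of_inertia ⟨g, k, ?_, ?_, h3⟩
  · apply LinearMap.ext
    intro x
    exact h1 x
  · apply LinearMap.ext
    intro x
    rw [Module.End.pow_apply]
    exact h2 x

theorem brg_full_slopes {T : FRep K Γ} (h : P.ThreeSlopes T) : SpFull T := Or.inr h

theorem brg_full_transv {T : FRep K Γ} (h : P.HasTransvection T) : SpFull T := by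
  obtain ⟨g, h1, h2⟩ := h
  exact Or.inl ⟨g, LinearMap.ext fun x => h1 x, h2⟩

/-- **The final form.** -/
theorem final {J : Type} {T : J → FRep K Γ} {A B : FRep K Γ}
    {C : ∀ a, Submodule K (P.Cl K (A.V × B.V) a)} {C' : ∀ a, Submodule K (P.Cl K B.V a)}
    (hT : ∀ j, P.IsSymplectic χ (P.act (T j))) (hF : ∀ j, SpFull (T j))
    (hiso : ∀ i j, i ≠ j → ¬P.PotIso K (P.act (T i)) (P.act (T j))) (hA : P.IsSumOf T A)
    (hB : HasPieces (fun U => ∀ j, SpSmall (T j) U) B)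
    (hC : P.Cycles χ (P.act A) (P.act B) C C') :
    (∀ n, P.TateUpTo χ (P.prodAct (P.act A) (P.act B)) C n ↔ P.TateUpTo χ (P.act B) C' n) ∧
    ∀ d, P.dim B = 2 * d → d ≤ 3 → P.LowCycles χ (P.act B) C' →
      ∀ n, P.TateUpTo χ (P.prodAct (P.act A) (P.act B)) C n := by
  have hC' := brg_cycles hC
  have h1 : ∀ n, P.TateUpTo χ (P.act B) C' n →
      P.TateUpTo χ (P.prodAct (P.act A) (P.act B)) C n := by
    intro n hn
    exact tate_iff (fun j => brg_symp (hT j)) hF (fun i j hij h => hiso i j hij (brg_iso h))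
      (brg_sum hA) hB hC' hn
  refine ⟨fun n => ⟨fun h => tate_conv hC' h, h1 n⟩, fun d hd h3 hL n => h1 n ?_⟩
  exact tate_low hC' ⟨hL.points, hL.curves⟩ hd h3 n

end Pool.Agent.Q71.AB
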