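import Pool.Agent.TH125.Nod.Fft2
import Pool.Agent.Y127.Exact
import Pool.Agent.Y127.G.Form

/-!
# The first fundamental theorem for the product of symplectic groups, for multilinear maps
-/

set_option linter.unusedSectionVars false

namespace Pool.Agent.Q71.AB

open Module Finset Function Pool.Agent.TH125.Gal Pool.Agent.TH125.Nod

universe v

section pair

variable {K : Type} [Field K] {W : Type v} [AddCommGroup W] [Module K W] {S : Type} {a : ℕ}

theorem pair_update [DecidableEq S] (e : Fin a × Fin 2 ≃ S) (β : Fin a → W →ₗ[K] W →ₗ[K] K) (v : S → W)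
    (l₀ : Fin a) (t : Fin 2) (x : W) {l : Fin a} (hl : l ≠ l₀) :
    β l (update v (e (l₀, t)) x (e (l, 0))) (update v (e (l₀, t)) x (e (l, 1))) =
      β l (v (e (l, 0))) (v (e (l, 1))) := by
  rw [update_of_ne (fun h => hl (congrArg Prod.fst (e.injective h))),
    update_of_ne (fun h => hl (congrArg Prod.fst (e.injective h)))]

/-- the product of bilinear forms -/
def pairProd (e : Fin a × Fin 2 ≃ S) (β : Fin a → W →ₗ[K] W →ₗ[K] K) :
    MultilinearMap K (fun _ : S => W) K where
  toFun v := ∏ l, β l (v (e (l, 0))) (v (e (l, 1)))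
  map_update_add' := by
    intro _ v s x y
    obtain ⟨⟨l₀, t⟩, rfl⟩ := e.surjective s
    rw [← Finset.mul_prod_erase univ _ (Finset.mem_univ l₀),
      ← Finset.mul_prod_erase univ (fun l => β l (update v (e (l₀, t)) x (e (l, 0)))
        (update v (e (l₀, t)) x (e (l, 1)))) (Finset.mem_univ l₀),
      ← Finset.mul_prod_erase univ (fun l => β l (update v (e (l₀, t)) y (e (l, 0)))
        (update v (e (l₀, t)) y (e (l, 1)))) (Finset.mem_univ l₀)]
    rw [Finset.prod_congr rfl fun l hl => pair_update e β v l₀ t (x + y) (Finset.ne_of_mem_erase hl),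
      Finset.prod_congr rfl fun l hl => pair_update e β v l₀ t x (Finset.ne_of_mem_erase hl),
      Finset.prod_congr rfl fun l hl => pair_update e β v l₀ t y (Finset.ne_of_mem_erase hl),
      ← add_mul]
    congr 1
    have h01 : e (l₀, 0) ≠ e (l₀, 1) := fun h =>
      (by decide : (0 : Fin 2) ≠ 1) (congrArg Prod.snd (e.injective h))
    fin_cases t
    · simp only [Fin.zero_eta, Fin.isValue, update_self]
      rw [update_of_ne h01.symm, update_of_ne h01.symm, update_of_ne h01.symm, map_add,
        LinearMap.add_apply]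
    · simp only [Fin.mk_one, Fin.isValue, update_self]
      rw [update_of_ne h01, update_of_ne h01, update_of_ne h01, map_add]
  map_update_smul' := by
    intro _ v s c x
    obtain ⟨⟨l₀, t⟩, rfl⟩ := e.surjective s
    rw [← Finset.mul_prod_erase univ _ (Finset.mem_univ l₀),
      ← Finset.mul_prod_erase univ (fun l => β l (update v (e (l₀, t)) x (e (l, 0)))
        (update v (e (l₀, t)) x (e (l, 1)))) (Finset.mem_univ l₀)]
    rw [Finset.prod_congr rfl fun l hl => pair_update e β v l₀ t (c • x) (Finset.ne_of_mem_erase hl),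
      Finset.prod_congr rfl fun l hl => pair_update e β v l₀ t x (Finset.ne_of_mem_erase hl),
      smul_eq_mul, ← mul_assoc]
    congr 1
    have h01 : e (l₀, 0) ≠ e (l₀, 1) := fun h =>
      (by decide : (0 : Fin 2) ≠ 1) (congrArg Prod.snd (e.injective h))
    fin_cases t
    · simp only [Fin.zero_eta, Fin.isValue, update_self]
      rw [update_of_ne h01.symm, update_of_ne h01.symm, map_smul, LinearMap.smul_apply, smul_eq_mul]
    · simp only [Fin.mk_one, Fin.isValue, update_self]
      rw [update_of_ne h01, update_of_ne h01, map_smul, smul_eq_mul]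

theorem pairProd_apply (e : Fin a × Fin 2 ≃ S) (β : Fin a → W →ₗ[K] W →ₗ[K] K) (v : S → W) :
    pairProd e β v = ∏ l, β l (v (e (l, 0))) (v (e (l, 1))) := rfl

end pair

variable {K : Type} [Field K] [CharZero K] {ι : Type} [Fintype ι] [DecidableEq ι]
  {T : ι → Type} [∀ j, AddCommGroup (T j)] [∀ j, Module K (T j)] [∀ j, FiniteDimensional K (T j)]
  {M : Type v} [AddCommGroup M] [Module K M]

/-- the sum of the forms -/
def sumForm (B : ∀ j, T j →ₗ[K] T j →ₗ[K] K) : (∀ j, T j) →ₗ[K] (∀ j, T j) →ₗ[K] K :=
  ∑ j, (B j).compl₁₂ (LinearMap.proj j) (LinearMap.proj j)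

theorem sumForm_apply (B : ∀ j, T j →ₗ[K] T j →ₗ[K] K) (x y : ∀ j, T j) :
    sumForm B x y = ∑ j, B j (x j) (y j) := by
  simp [sumForm]

/-- the projector to a component -/
def cmp (j : ι) : (∀ j, T j) →ₗ[K] (∀ j, T j) := LinearMap.single K T j ∘ₗ LinearMap.proj j

theorem cmp_apply (j : ι) (x : ∀ j, T j) : cmp (K := K) j x = Pi.single j (x j) := rfl

theorem sumForm_single_left (B : ∀ j, T j →ₗ[K] T j →ₗ[K] K) (j : ι) (x : T j) (y : ∀ j, T j) :
    sumForm B (Pi.single j x) y = B j x (y j) := by
  rw [sumForm_apply, Finset.sum_eq_single j]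
  · rw [Pi.single_eq_same]
  · intro i _ hi
    rw [Pi.single_eq_of_ne hi, map_zero, LinearMap.zero_apply]
  · intro h
    exact absurd (Finset.mem_univ j) h

theorem sumForm_single_right (B : ∀ j, T j →ₗ[K] T j →ₗ[K] K) (j : ι) (x : ∀ j, T j) (y : T j) :
    sumForm B x (Pi.single j y) = B j (x j) y := by
  rw [sumForm_apply, Finset.sum_eq_single j]
  · rw [Pi.single_eq_same]
  · intro i _ hi
    rw [Pi.single_eq_of_ne hi, map_zero]
  · intro h
    exact absurd (Finset.mem_univ j) h

/-- **The first fundamental theorem.** -/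
theorem fft_pi {B : ∀ j, T j →ₗ[K] T j →ₗ[K] K} (alt : ∀ j x y, B j x y = -B j y x)
    (nd : ∀ j x, (∀ y, B j x y = 0) → x = 0) {S : Type} [Fintype S] [DecidableEq S] (c : S → ι)
    (F : MultilinearMap K (fun _ : S => ∀ j, T j) M)
    (hc : ∀ v, F (fun s => Pi.single (c s) (v s (c s))) = F v)
    (hF : ∀ i (X : Module.End K (T i)), Skew (B i) X → ∀ v : S → ∀ j, T j,
      ∑ s, F (update v s (Pi.single i (X (v s i)))) = 0) :
    F ∈ Submodule.span K {G : MultilinearMap K (fun _ : S => ∀ j, T j) M |
      ∃ (a : ℕ) (e : Fin a × Fin 2 ≃ S) (w : M), ∀ v, G v = pairProd e (fun l =>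
        (sumForm B).compl₁₂ (cmp (c (e (l, 0)))) (cmp (c (e (l, 1))))) v • w} := by
  classical
  let b : Module.Basis (Σ j, Fin (finrank K (T j))) K (∀ j, T j) :=
    Pi.basis fun j => Module.finBasis K (T j)
  have hb : ∀ p : (Σ j, Fin (finrank K (T j))), b p = Pi.single p.1 (Module.finBasis K (T p.1) p.2) :=
    fun p => Pi.basis_apply _ p
  let Q : Matrix (Σ j, Fin (finrank K (T j))) (Σ j, Fin (finrank K (T j))) K :=
    Matrix.of fun p q => sumForm B (b p) (b q)
  have hQ : ∀ p q, Q p q = sumForm B (b p) (b q) := fun _ _ => rfl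
  have hQ' : ∀ p y, sumForm B (b p) y = B p.1 (Module.finBasis K (T p.1) p.2) (y p.1) := by
    intro p y
    rw [hb, sumForm_single_left]
  have hsa : ∀ x y, sumForm B x y = -sumForm B y x := by
    intro x y
    rw [sumForm_apply, sumForm_apply, ← Finset.sum_neg_distrib]
    exact Finset.sum_congr rfl fun j _ => alt j _ _
  obtain ⟨R, hR⟩ := Pool.Agent.Y127.exists_inv_gram (s := (-1 : K)) (B := sumForm B)
    (fun x y => by rw [neg_one_mul]; exact hsa x y) (fun x hx => by
      funext j
      refine nd j _ fun y => ?_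
      rw [← sumForm_single_right B j x y]
      exact hx _) b
  have key := fft (κ := Sigma.fst) (Q := Q) (R := R) (s := fun _ : ι => (-1 : ℤ))
    (fun _ => Or.inr rfl)
    (fun p q hpq => by
      rw [hQ, hQ', hb, Pi.single_eq_of_ne hpq, map_zero])
    (fun p q => by
      rw [hQ, hQ, hsa]
      push_cast
      ring) hR (Fintype.card S) S c (fun J => F fun s => b (J s)) rfl ?_ ?_
    (fun i h => absurd h (by decide))
  · -- from the coordinates to the maps
    have hgen : ∀ f ∈ Gen (K := K) (M := M) Sigma.fst Q c, ∃ G ∈ Submodule.span K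
        {G : MultilinearMap K (fun _ : S => ∀ j, T j) M |
        ∃ (a : ℕ) (e : Fin a × Fin 2 ≃ S) (w : M), ∀ v, G v = pairProd e (fun l =>
        (sumForm B).compl₁₂ (cmp (c (e (l, 0)))) (cmp (c (e (l, 1))))) v • w},
        ∀ J, f J = G fun s => b (J s) := by
      intro f hf
      unfold Gen at hf
      induction hf using Submodule.span_induction with
      | mem f hf =>
        obtain ⟨a, e, w, rfl⟩ := hf
        refine ⟨(LinearMap.toSpanSingleton K M w).compMultilinearMap (pairProd e (fun l =>
          (sumForm B).compl₁₂ (cmp (c (e (l, 0)))) (cmp (c (e (l, 1)))))),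
          Submodule.subset_span ⟨a, e, w, fun v => rfl⟩, fun J => ?_⟩
        have h1 : ∀ (s : S), Sigma.fst (J s) = c s → cmp (K := K) (c s) (b (J s)) = b (J s) := by
          intro s hs
          rw [cmp_apply, ← hs, hb, Pi.single_eq_same]
        have h2 : ∀ (s : S), Sigma.fst (J s) ≠ c s → cmp (K := K) (c s) (b (J s)) = 0 := by
          intro s hs
          rw [cmp_apply, hb, Pi.single_eq_of_ne (Ne.symm hs), Pi.single_zero]
        change gen (K := K) (M := M) Sigma.fst Q c e w J = pairProd e (fun l =>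
          (sumForm B).compl₁₂ (cmp (c (e (l, 0)))) (cmp (c (e (l, 1))))) (fun s => b (J s)) • w
        rw [pairProd_apply]
        unfold gen
        by_cases hJ : ∀ j, Sigma.fst (J j) = c j
        · rw [if_pos hJ]
          congr 1
          refine Finset.prod_congr rfl fun l _ => ?_
          rw [LinearMap.compl₁₂_apply, h1 _ (hJ _), h1 _ (hJ _), hQ]
        · rw [if_neg hJ]
          obtain ⟨s, hs⟩ := not_forall.1 hJ
          obtain ⟨⟨l, t⟩, rfl⟩ := e.surjective s
          rw [Finset.prod_eq_zero (Finset.mem_univ l), zero_smul]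
          rw [LinearMap.compl₁₂_apply]
          have ht : t = 0 ∨ t = 1 := by
            fin_cases t
            · exact Or.inl rfl
            · exact Or.inr rfl
          rcases ht with rfl | rfl
          · rw [h2 _ hs, map_zero, LinearMap.zero_apply]
          · rw [h2 _ hs, map_zero]
      | zero => exact ⟨0, Submodule.zero_mem _, fun J => rfl⟩
      | add f g _ _ hf hg =>
        obtain ⟨G, h1, h2⟩ := hf
        obtain ⟨G', h3, h4⟩ := hg
        exact ⟨G + G', Submodule.add_mem _ h1 h3, fun J => by
          rw [Pi.add_apply, h2, h4]; rfl⟩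
      | smul x f _ hf =>
        obtain ⟨G, h1, h2⟩ := hf
        exact ⟨x • G, Submodule.smul_mem _ x h1, fun J => by rw [Pi.smul_apply, h2]; rfl⟩
    obtain ⟨G, hG, h⟩ := hgen _ key
    have : F = G := Module.Basis.ext_multilinear (fun _ => b) h
    rw [this]
    exact hG
  · -- the support
    intro J hJ
    obtain ⟨s, hs⟩ := not_forall.1 hJ
    change F (fun s => b (J s)) = 0
    rw [← hc]
    refine F.map_coord_zero s ?_
    rw [hb, Pi.single_eq_of_ne (Ne.symm hs), Pi.single_zero]
  · -- invariance
    rintro ⟨i, k⟩ ⟨i', k'⟩ (rfl : i = i') J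
    let X : Module.End K (T i) := Pool.Agent.Y127.G.oo (B i) (-1)
      (Module.finBasis K (T i) k) (Module.finBasis K (T i) k')
    have hX : Skew (B i) X := by
      intro x y
      simp only [X, Pool.Agent.Y127.G.oo_apply, map_sub, map_smul, LinearMap.sub_apply,
        LinearMap.smul_apply, smul_eq_mul]
      rw [alt i x (Module.finBasis K (T i) k), alt i x (Module.finBasis K (T i) k')]
      ring
    have h1 := hF i X hX fun s => b (J s)
    refine Eq.trans (Finset.sum_congr rfl fun s _ => ?_) h1
    have h2 : (Pi.single i (X (b (J s) i)) : ∀ j, T j) =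
        Q ⟨i, k'⟩ (J s) • b ⟨i, k⟩ - (((-1 : ℤ) : K) * Q ⟨i, k⟩ (J s)) • b ⟨i, k'⟩ := by
      rw [hQ, hQ, hQ', hQ', hb ⟨i, k⟩, hb ⟨i, k'⟩]
      simp only [X, Pool.Agent.Y127.G.oo_apply]
      rw [Pi.single_sub, Pi.single_smul, Pi.single_smul]
      push_cast
      rfl
    rw [h2, F.map_update_sub, F.map_update_smul, F.map_update_smul]
    have h3 : ∀ p, (fun x => b (update J s p x)) = update (fun s => b (J s)) s (b p) := by
      intro p
      funext x
      by_cases hx : x = s
      · subst hx; rw [update_self, update_self]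
      · rw [update_of_ne hx, update_of_ne hx]
    rw [← h3, ← h3]

end Pool.Agent.Q71.AB
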