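import Pool.Agent.Q71.AB.Lie
import Pool.Agent.Q71.AB.Fft

/-!
# Semi-invariant multilinear forms on a sum of representations of symplectic type and a small
# representation
-/

set_option linter.unusedSectionVars false

namespace Pool.Agent.Q71.AB

open Module Finset Function Pool.Agent.TH118.SG Pool.Agent.TH125.Gal Pool.Agent.Y127.G
  Pool.Agent.Y127.C Pool.Agent.Q71.SP

variable {K : Type} [Field K] {Γ : Type} [Group Γ]

/-- a form on which a subgroup of finite index acts by `χ ^ n` -/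
def SemiF (χ : Γ →* Kˣ) (M : FRep K Γ) (n : ℕ) {S : Type}
    (f : MultilinearMap K (fun _ : S => M.V) K) : Prop :=
  ∃ Δ : Subgroup Γ, Δ.FiniteIndex ∧ ∀ g ∈ Δ, ∀ v, f (fun s => M.ρ g (v s)) = (χ g : K) ^ n * f v

/-- a decomposition -/
structure Dec {ι : Type} (T : ι → FRep K Γ) (N₀ W : FRep K Γ) where
  P : Type
  [fin : Fintype P]
  [dec : DecidableEq P]
  c : P → ι
  i : ∀ p, (T (c p)).V →ₗ[K] W.V
  r : ∀ p, W.V →ₗ[K] (T (c p)).V
  i₀ : N₀.V →ₗ[K] W.V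
  r₀ : W.V →ₗ[K] N₀.V
  ri : ∀ p x, r p (i p x) = x
  ri₀ : ∀ x, r₀ (i₀ x) = x
  sum : ∀ w, i₀ (r₀ w) + ∑ p, i p (r p w) = w
  Δ : Subgroup Γ
  fi : Δ.FiniteIndex
  i_eqv : ∀ g ∈ Δ, ∀ p x, i p ((T (c p)).ρ g x) = W.ρ g (i p x)
  r_eqv : ∀ g ∈ Δ, ∀ p w, r p (W.ρ g w) = (T (c p)).ρ g (r p w)
  i₀_eqv : ∀ g ∈ Δ, ∀ x, i₀ (N₀.ρ g x) = W.ρ g (i₀ x)
  r₀_eqv : ∀ g ∈ Δ, ∀ w, r₀ (W.ρ g w) = N₀.ρ g (r₀ w)

attribute [instance] Dec.fin Dec.dec

namespace Dec

variable {ι : Type} {T : ι → FRep K Γ} {N₀ W : FRep K Γ} (d : Dec T N₀ W)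

/-- the member of the family -/
def sl (m : ℕ) : Option d.P → Jx ι m
  | some p => .t (d.c p)
  | none => .b

variable {m : ℕ} (M : Fin m → FRep K Γ) (κ : ι → Fin m → Γ →* Kˣ) (χ : Γ →* Kˣ)

/-- inclusion -/
def inc : ∀ o : Option d.P, (fam T M κ χ N₀ (d.sl m o)).V →ₗ[K] W.V
  | some p => d.i p
  | none => d.i₀

/-- projection -/
def prj : ∀ o : Option d.P, W.V →ₗ[K] (fam T M κ χ N₀ (d.sl m o)).V
  | some p => d.r p
  | none => d.r₀

/-- projector -/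
def pr : Option d.P → (W.V →ₗ[K] W.V)
  | some p => d.i p ∘ₗ d.r p
  | none => d.i₀ ∘ₗ d.r₀

theorem inc_prj (o : Option d.P) (w : W.V) : d.inc M κ χ o (d.prj M κ χ o w) = d.pr o w := by
  cases o <;> rfl

theorem prj_inc (o : Option d.P) (x : (fam T M κ χ N₀ (d.sl m o)).V) :
    d.prj M κ χ o (d.inc M κ χ o x) = x := by
  cases o with
  | some p => exact d.ri p x
  | none => exact d.ri₀ x

theorem pr_pr (o : Option d.P) (w : W.V) : d.pr o (d.pr o w) = d.pr o w := by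
  cases o with
  | some p => exact congrArg (d.i p) (d.ri p _)
  | none => exact congrArg d.i₀ (d.ri₀ _)

theorem inc_eqv {g : Γ} (hg : g ∈ d.Δ) (o : Option d.P) (x : (fam T M κ χ N₀ (d.sl m o)).V) :
    d.inc M κ χ o ((fam T M κ χ N₀ (d.sl m o)).ρ g x) = W.ρ g (d.inc M κ χ o x) := by
  cases o with
  | some p => exact d.i_eqv g hg p x
  | none => exact d.i₀_eqv g hg x

theorem pr_eqv {g : Γ} (hg : g ∈ d.Δ) (o : Option d.P) (w : W.V) :
    d.pr o (W.ρ g w) = W.ρ g (d.pr o w) := by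
  cases o with
  | some p => exact (congrArg (d.i p) (d.r_eqv g hg p w)).trans (d.i_eqv g hg p _)
  | none => exact (congrArg d.i₀ (d.r₀_eqv g hg w)).trans (d.i₀_eqv g hg _)

theorem sum_pr (w : W.V) : ∑ o, d.pr o w = w := by
  rw [Fintype.sum_option]
  exact d.sum w

/-- **the operators kill the form** -/
theorem kill_W [CharZero K] {S : Type} [Fintype S] [DecidableEq S] {n : ℕ}
    {f : MultilinearMap K (fun _ : S => W.V) K} (hf : SemiF χ W n f)
    {D : ∀ j, (fam T M κ χ N₀ j).V →ₗ[K] (fam T M κ χ N₀ j).V} (hD : D ∈ GG (fam T M κ χ N₀))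
    (hDn : D (Jx.chi n) = 0) (o : S → Option d.P) (v : S → W.V) :
    ∑ s, f (fun x => d.pr (o x) (update v s (d.inc M κ χ (o s) (D (d.sl m (o s))
      (d.prj M κ χ (o s) (v s)))) x)) = 0 := by
  let h : MultilinearMap K (fun s => (fam T M κ χ N₀ (d.sl m (o s))).V) K :=
    f.compLinearMap fun s => d.inc M κ χ (o s)
  obtain ⟨Δ, hΔ, hf⟩ := hf
  haveI := d.fi
  have hh : EqvD (fam T M κ χ N₀) (fun s => d.sl m (o s)) (Jx.chi n) h := by
    refine ⟨Δ ⊓ d.Δ, inferInstance, fun g hg u => ?_⟩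
    change f (fun s => d.inc M κ χ (o s) ((fam T M κ χ N₀ (d.sl m (o s))).ρ g (u s))) =
      ((χ ^ n : Γ →* Kˣ) g : K) • f (fun s => d.inc M κ χ (o s) (u s))
    simp only [d.inc_eqv M κ χ hg.2]
    rw [hf g hg.1, MonoidHom.pow_apply, Units.val_pow_eq_pow_val, smul_eq_mul]
  have h1 := hD S (fun s => d.sl m (o s)) (Jx.chi n) h hh fun s => d.prj M κ χ (o s) (v s)
  rw [hDn, LinearMap.zero_apply] at h1
  refine Eq.trans (Finset.sum_congr rfl fun s _ => ?_) h1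
  change _ = f fun x => d.inc M κ χ (o x) (update (fun s => d.prj M κ χ (o s) (v s)) s
    (D (d.sl m (o s)) (d.prj M κ χ (o s) (v s))) x)
  congr 1
  funext x
  by_cases hx : x = s
  · subst hx
    rw [update_self, update_self, ← d.inc_prj M κ χ, d.prj_inc M κ χ]
  · rw [update_of_ne hx, update_of_ne hx, d.inc_prj M κ χ]

end Dec

end Pool.Agent.Q71.AB
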