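import Pool.Agent.Y127.G.Tan

/-!
# The cohomology classes of abelian varieties: definitions

An abelian variety is given by its rational Tate module `V`, with coefficients in a field `K` and the
action of the Galois group `Γ`; its cohomology in degree `n` is the space of the alternating forms
in `n` variables on `V`.
-/

set_option autoImplicit false

namespace Pool.Agent.Q71.AB

open Module Pool.Agent.Y127.G

variable {K : Type} [Field K] {Γ : Type} [Group Γ]

/-- the exterior product of alternating forms -/
noncomputable def cup {V S S' : Type} [AddCommGroup V] [Module K V] [Fintype S] [DecidableEq S]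
    [Fintype S'] [DecidableEq S'] (f : V [⋀^S]→ₗ[K] K) (g : V [⋀^S']→ₗ[K] K) :
    V [⋀^S ⊕ S']→ₗ[K] K :=
  (LinearMap.mul' K K).compAlternatingMap (f.domCoprod g)

/-- the cohomology classes of degree `2 a` -/
abbrev Cl (W : FRep K Γ) (a : ℕ) : Type := W.V [⋀^Fin (2 * a)]→ₗ[K] K

/-- A class of degree `2 a` is a Tate class if the elements of a subgroup of finite index act on it by
the power `χ ^ a` of the cyclotomic character. -/
def IsTate (χ : Γ →* Kˣ) (W : FRep K Γ) (a : ℕ) (f : Cl W a) : Prop :=
  ∃ Δ : Subgroup Γ, Δ.FiniteIndex ∧ ∀ g ∈ Δ, ∀ v, f (fun s => W.ρ g (v s)) = (χ g : K) ^ a * f v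

/-- the product -/
def prod (A B : FRep K Γ) : FRep K Γ where
  V := A.V × B.V
  ρ :=
    { toFun := fun g => (A.ρ g).prodMap (B.ρ g)
      map_one' := by
        rw [map_one, map_one]
        rfl
      map_mul' := by
        intro g h
        rw [map_mul, map_mul]
        rfl }

/-- The spaces `C a` and `C' a` spanned by the classes of the algebraic cycles of codimension `a` on
`A × B` and on `B`. -/
structure Cycles (χ : Γ →* Kˣ) (A B : FRep K Γ) (C : ∀ a, Submodule K (Cl (prod A B) a))
    (C' : ∀ a, Submodule K (Cl B a)) : Prop where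
  /-- the class of `A × B` -/
  fundamental : ∀ f, f ∈ C 0
  /-- the theorem of Faltings and Zarhin: the Tate conjecture for divisors -/
  divisors : ∀ f, IsTate χ (prod A B) 1 f → f ∈ C 1
  /-- intersections of cycles -/
  intersection : ∀ a b f g, f ∈ C a → g ∈ C b →
    ∀ e : Fin (2 * a) ⊕ Fin (2 * b) ≃ Fin (2 * (a + b)), (cup f g).domDomCongr e ∈ C (a + b)
  /-- pullbacks by the projection to `B` -/
  pull : ∀ a, ∀ f ∈ C' a, f.compLinearMap (LinearMap.snd K A.V B.V) ∈ C a
  /-- pullbacks by the zero section -/
  restrict : ∀ a, ∀ f ∈ C a, f.compLinearMap (LinearMap.inr K A.V B.V) ∈ C' a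

/-- All Tate classes of codimension at most `n` are combinations of classes of cycles. -/
def TateUpTo (χ : Γ →* Kˣ) (W : FRep K Γ) (C : ∀ a, Submodule K (Cl W a)) (n : ℕ) : Prop :=
  ∀ a ≤ n, ∀ f, IsTate χ W a f → f ∈ C a

end Pool.Agent.Q71.AB
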