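import Pool.Agent.Q71.AB.Split
import Pool.Agent.Q71.AB.Pub

/-!
# From multilinear forms to classes of cycles
-/

set_option linter.unusedSectionVars false

namespace Pool.Agent.Q71.AB

open Module Finset Function Pool.Agent.TH118.SG Pool.Agent.TH125.Gal Pool.Agent.Y127.G
  Pool.Agent.Y127.C Pool.Agent.Q71.SP TensorProduct MultilinearMap

section alt

variable {K : Type} [Field K] {V : Type} [AddCommGroup V] [Module K V] {S S' : Type} [Fintype S]
  [DecidableEq S] [Fintype S'] [DecidableEq S']

theorem alt_congr (F : MultilinearMap K (fun _ : S => V) K) (e : S ≃ S') :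
    alternatization (F.domDomCongr e) = (alternatization F).domDomCongr e := by
  ext v
  rw [alternatization_apply]
  change _ = alternatization F (fun i => v (e i))
  rw [alternatization_apply]
  refine Fintype.sum_equiv (Equiv.permCongr e.symm) _ _ fun σ => ?_
  have h1 : Equiv.Perm.sign ((Equiv.permCongr e.symm) σ) = Equiv.Perm.sign σ :=
    Equiv.Perm.sign_permCongr _ _
  rw [h1]
  congr 1
  change F (fun i => v (σ (e i))) = F (fun i => v (e (e.symm (σ (e.symm.symm i)))))
  congr 1
  funext i
  rw [Equiv.apply_symm_apply, Equiv.symm_symm]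

theorem alt_comp {V' : Type} [AddCommGroup V'] [Module K V']
    (F : MultilinearMap K (fun _ : S => V) K) (r : V' →ₗ[K] V) :
    alternatization (F.compLinearMap fun _ => r) = (alternatization F).compLinearMap r := by
  ext v
  rw [alternatization_apply]
  change _ = alternatization F (fun i => r (v i))
  rw [alternatization_apply]
  rfl

theorem alt_smul (k : K) (F : MultilinearMap K (fun _ : S => V) K) :
    alternatization (k • F) = k • alternatization F := by
  ext v
  rw [alternatization_apply]
  change _ = k • alternatization F v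
  rw [alternatization_apply, Finset.smul_sum]
  refine Finset.sum_congr rfl fun σ _ => ?_
  rw [smul_comm]
  rfl

end alt

variable {K : Type} [Field K] {Γ : Type} [Group Γ] {W : FRep K Γ}

/-- the alternations are classes of cycles -/
def InC (C : ∀ a, Submodule K (Cl W a)) {S : Type} (F : MultilinearMap K (fun _ : S => W.V) K) :
    Prop :=
  ∀ (a : ℕ) (e : S ≃ Fin (2 * a)), alternatization (F.domDomCongr e) ∈ C a

variable {C : ∀ a, Submodule K (Cl W a)} {S S' : Type}

theorem InC.congr {F : MultilinearMap K (fun _ : S => W.V) K} (h : InC C F) (σ : S ≃ S') :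
    InC C (F.domDomCongr σ) := fun a e => h a (σ.trans e)

theorem InC.add {F G : MultilinearMap K (fun _ : S => W.V) K} (hF : InC C F) (hG : InC C G) :
    InC C (F + G) := fun a e => by
  have h1 : (F + G).domDomCongr e = F.domDomCongr e + G.domDomCongr e := rfl
  rw [h1, map_add]
  exact Submodule.add_mem _ (hF a e) (hG a e)

theorem InC.smul (k : K) {F : MultilinearMap K (fun _ : S => W.V) K} (hF : InC C F) :
    InC C (k • F) := fun a e => by
  have h1 : (k • F).domDomCongr e = k • F.domDomCongr e := rfl
  rw [h1, alt_smul]
  exact Submodule.smul_mem _ _ (hF a e)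

theorem InC.zero : InC C (0 : MultilinearMap K (fun _ : S => W.V) K) := fun a e => by
  have h1 : (0 : MultilinearMap K (fun _ : S => W.V) K).domDomCongr e = 0 := rfl
  rw [h1, _root_.map_zero]
  exact Submodule.zero_mem _

theorem InC.sum {α : Type} {s : Finset α} {F : α → MultilinearMap K (fun _ : S => W.V) K}
    (hF : ∀ i ∈ s, InC C (F i)) : InC C (∑ i ∈ s, F i) := by
  classical
  induction s using Finset.induction_on with
  | empty => rw [Finset.sum_empty]; exact InC.zero
  | insert i s hi ih =>
    rw [Finset.sum_insert hi]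
    exact (hF i (Finset.mem_insert_self _ _)).add (ih fun j hj => hF j (Finset.mem_insert_of_mem hj))

theorem InC.span {𝒮 : Set (MultilinearMap K (fun _ : S => W.V) K)} (h𝒮 : ∀ F ∈ 𝒮, InC C F)
    {F : MultilinearMap K (fun _ : S => W.V) K} (hF : F ∈ Submodule.span K 𝒮) : InC C F := by
  induction hF using Submodule.span_induction with
  | mem F hF => exact h𝒮 F hF
  | zero => exact InC.zero
  | add F G _ _ hF hG => exact hF.add hG
  | smul k F _ hF => exact hF.smul k

/-- **products** -/
theorem InC.mul [Fintype S] [DecidableEq S] [Fintype S'] [DecidableEq S']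
    (hC : ∀ a b f g, f ∈ C a → g ∈ C b →
    ∀ e : Fin (2 * a) ⊕ Fin (2 * b) ≃ Fin (2 * (a + b)), (cup f g).domDomCongr e ∈ C (a + b))
    {F : MultilinearMap K (fun _ : S => W.V) K} {G : MultilinearMap K (fun _ : S' => W.V) K}
    (hF : InC C F) (hG : InC C G) {a b : ℕ} (ha : Fintype.card S = 2 * a)
    (hb : Fintype.card S' = 2 * b) :
    InC C ((LinearMap.mul' K K).compMultilinearMap (F.domCoprod G)) := by
  intro n e
  have hn : n = a + b := by
    have h1 := Fintype.card_congr e
    rw [Fintype.card_sum, Fintype.card_fin, ha, hb] at h1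
    omega
  subst hn
  let e1 : S ≃ Fin (2 * a) := Fintype.equivFinOfCardEq ha
  let e2 : S' ≃ Fin (2 * b) := Fintype.equivFinOfCardEq hb
  have h1 : ((LinearMap.mul' K K).compMultilinearMap (F.domCoprod G)).domDomCongr e =
      ((LinearMap.mul' K K).compMultilinearMap ((F.domDomCongr e1).domCoprod
        (G.domDomCongr e2))).domDomCongr ((Equiv.sumCongr e1 e2).symm.trans e) := by
    apply MultilinearMap.ext
    intro v
    have h2 : (fun i => v (e (Sum.inl (e1.symm (e1 i))))) = fun i => v (e (Sum.inl i)) := by
      funext i
      rw [e1.symm_apply_apply]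
    have h3 : (fun i => v (e (Sum.inr (e2.symm (e2 i))))) = fun i => v (e (Sum.inr i)) := by
      funext i
      rw [e2.symm_apply_apply]
    have h4 : (((LinearMap.mul' K K).compMultilinearMap ((F.domDomCongr e1).domCoprod
        (G.domDomCongr e2))).domDomCongr ((Equiv.sumCongr e1 e2).symm.trans e)) v =
        F (fun i => v (e (Sum.inl (e1.symm (e1 i))))) *
          G (fun i => v (e (Sum.inr (e2.symm (e2 i))))) := rfl
    rw [h4, h2, h3]
    rfl
  rw [h1, alt_congr, LinearMap.compMultilinearMap_alternatization,
    MultilinearMap.domCoprod_alternization]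
  exact hC a b _ _ (hF a e1) (hG b e2) _

end Pool.Agent.Q71.AB
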