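import Pool.Agent.Q71.AB.Pub
import Pool.Agent.Y127.G.SDefs

/-!
# Symplectic pieces of the Tate module and small pieces: definitions
-/

set_option autoImplicit false

namespace Pool.Agent.Q71.AB

open Module Pool.Agent.Y127.G

variable {K : Type} [Field K] {Γ : Type} [Group Γ]

/-- `M` has a nondegenerate alternating form with the multiplier `χ`, and it is irreducible under all
subgroups of finite index. -/
structure IsSymplectic (χ : Γ →* Kˣ) (M : FRep K Γ) : Prop where
  form : ∃ B : M.V →ₗ[K] M.V →ₗ[K] K, (∀ x, B x x = 0) ∧ (∀ x, (∀ y, B x y = 0) → x = 0) ∧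
    ∀ g x y, B (M.ρ g x) (M.ρ g y) = (χ g : K) * B x y
  irreducible : ∀ Δ : Subgroup Γ, Δ.FiniteIndex → ∀ U : Submodule K M.V,
    (∀ g ∈ Δ, ∀ x ∈ U, M.ρ g x ∈ U) → U = ⊥ ∨ U = ⊤

/-- an isomorphism which is equivariant under a subgroup of finite index -/
def PotIso (M M' : FRep K Γ) : Prop :=
  ∃ Δ : Subgroup Γ, Δ.FiniteIndex ∧ ∃ ψ : M.V ≃ₗ[K] M'.V, ∀ g ∈ Δ, ∀ x, ψ (M.ρ g x) = M'.ρ g (ψ x)

/-- `A` is the direct sum of copies of the `T j`, under a subgroup of finite index. -/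
def IsSumOf {J : Type} (T : J → FRep K Γ) (A : FRep K Γ) : Prop :=
  ∃ (P : Type) (_ : Fintype P) (c : P → J) (e : A.V ≃ₗ[K] ∀ p, (T (c p)).V) (Δ : Subgroup Γ),
    Δ.FiniteIndex ∧ ∀ g ∈ Δ, ∀ x p, e (A.ρ g x) p = (T (c p)).ρ g (e x p)

/-- `B` is the sum of the images of finitely many representations `M a` with the property `P`, by maps
which are equivariant under subgroups of finite index. -/
def HasPieces (P : FRep K Γ → Prop) (B : FRep K Γ) : Prop :=
  ∃ (m : ℕ) (M : Fin m → FRep K Γ), (∀ a, P (M a)) ∧ ∀ x : B.V, x ∈ Submodule.span K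
    {x | ∃ a, ∃ f : (M a).V →ₗ[K] B.V, (∃ Δ : Subgroup Γ, Δ.FiniteIndex ∧
      ∀ g ∈ Δ, ∀ y, f ((M a).ρ g y) = B.ρ g (f y)) ∧ ∃ y, f y = x}

/-- `M` has a nondegenerate form with `B (x, y) = s B (y, x)` which is invariant up to a character. -/
def Form (s : K) (M : FRep K Γ) : Prop :=
  ∃ (μ : Γ →* Kˣ) (B : M.V →ₗ[K] M.V →ₗ[K] K), (∀ x y, B x y = s * B y x) ∧
    (∀ x, (∀ y, B x y = 0) → x = 0) ∧ ∀ g x y, B (M.ρ g x) (M.ρ g y) = (μ g : K) * B x y

/-- The dimension of `U` is small in comparison with the one of `T`: `dim U < dim T` if `U` has an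
alternating form, `dim U ≤ dim T` if it has a symmetric form; without forms
`2 (dim U) ^ 2 < dim T (dim T + 1)`. -/
def SmallDim (T U : FRep K Γ) : Prop :=
  (Form (-1) U ∧ finrank K U.V < finrank K T.V) ∨ (Form 1 U ∧ finrank K U.V ≤ finrank K T.V) ∨
    2 * finrank K U.V ^ 2 < finrank K T.V * (finrank K T.V + 1)

/-- Some `F` (a Frobenius element) acts on `T` with the slopes `h + c` and `h - c`, once each, and
`h`, where `c ≠ 0`. -/
def ThreeSlopes (T : FRep K Γ) : Prop :=
  ∃ (v : Additive Kˣ →+ ℚ) (F : Γ) (h c : ℚ), c ≠ 0 ∧ K3Slopes v (T.ρ F) h c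

/-- Some `F` acts on `T` with three slopes as above, and on `U` with less than `dim T - 2` pairs of
slopes with the difference `c`; or the slopes of some `F` on `T` are between `a` and `b`, the
slope `b` occurs `m` times, and there are less than `m (m + 1) / 2` pairs of slopes on `U` with the
difference `b - a`. -/
def FewSlopes (T U : FRep K Γ) : Prop :=
  ∃ (v : Additive Kˣ →+ ℚ) (F : Γ),
    (∃ h c : ℚ, c ≠ 0 ∧ K3Slopes v (T.ρ F) h c ∧
      gaps (slopes v (U.ρ F)) c + 2 < finrank K T.V) ∨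
    ∃ a b : ℚ, (∀ s ∈ slopes v (T.ρ F), a ≤ s ∧ s ≤ b) ∧ a ∈ slopes v (T.ρ F) ∧
      2 * gaps (slopes v (U.ρ F)) (b - a) <
        (slopes v (T.ρ F)).count b * ((slopes v (T.ρ F)).count b + 1)

/-- Some `g` (in the inertia group of a place) acts on `T` by a transvection: `(g - 1) ^ 2 = 0` and
`g - 1` has rank one. -/
def HasTransvection (T : FRep K Γ) : Prop :=
  ∃ g : Γ, (T.ρ g - 1) ^ 2 = 0 ∧ finrank K (LinearMap.range (T.ρ g - 1)) = 1

/-- Some `g` (in the inertia group of a place) acts with `(g - 1) ^ 2 = 0` on `T` and on `U`, and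
`2 d' ^ 2 < d (d + 1)` where `d` and `d'` are the ranks of `g - 1` on `T` and on `U`; more generally
`2 (d₁ ^ 2 + 2 d₂ dim U) < d (d + 1)` with the ranks `d₁`, `d₂` of `g - 1` and `(g - 1) ^ 2` on `U`,
if `g` is unipotent on `U`. -/
def SmallInertia (T U : FRep K Γ) : Prop :=
  ∃ (g : Γ) (k : ℕ), (T.ρ g - 1) ^ 2 = 0 ∧ (U.ρ g - 1) ^ k = 0 ∧
    2 * (finrank K (LinearMap.range (U.ρ g - 1)) ^ 2 +
      2 * finrank K (LinearMap.range ((U.ρ g - 1) ^ 2)) * finrank K U.V) <
      finrank K (LinearMap.range (T.ρ g - 1)) * (finrank K (LinearMap.range (T.ρ g - 1)) + 1)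

/-- The cycles of dimension at most one on the abelian variety `B`: the classes of points span the
cohomology of highest degree, and the Tate conjecture is true for curves (by the hard Lefschetz
theorem and the Tate conjecture for divisors). -/
structure LowCycles (χ : Γ →* Kˣ) (B : FRep K Γ) (C : ∀ a, Submodule K (Cl B a)) : Prop where
  points : ∀ a, finrank K B.V = 2 * a → ∀ f, f ∈ C a
  curves : ∀ a, finrank K B.V = 2 * (a + 1) → ∀ f, IsTate χ B a f → f ∈ C a

end Pool.Agent.Q71.AB
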