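import Pool.Agent.Q71.AB.Main
import Pool.Agent.Q71.AB.Pub2

/-!
# The Tate conjecture for products of abelian varieties
-/

set_option linter.unusedSectionVars false

namespace Pool.Agent.Q71.AB

open Module Finset Function Pool.Agent.TH118.SG Pool.Agent.TH125.Gal Pool.Agent.Y127.G
  Pool.Agent.Y127.C Pool.Agent.Q71.SP

variable {K : Type} [Field K] {Γ : Type} [Group Γ] {χ : Γ →* Kˣ}

/-- the determinant of a similitude -/
theorem det_sq {M : FRep K Γ} {B : M.V →ₗ[K] M.V →ₗ[K] K}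
    (nd : ∀ x, (∀ y, B x y = 0) → x = 0)
    (eqv : ∀ g x y, B (M.ρ g x) (M.ρ g y) = (χ g : K) * B x y) (g : Γ) :
    LinearMap.det (M.ρ g) ^ 2 = (χ g : K) ^ finrank K M.V := by
  classical
  let b := Module.finBasis K M.V
  have hQ : (LinearMap.toMatrix₂ b b B).det ≠ 0 :=
    (LinearMap.separatingLeft_iff_det_ne_zero b).1 nd
  have h1 := LinearMap.toMatrix₂_compl₁₂ b b b b B (M.ρ g) (M.ρ g)
  have h2 : B.compl₁₂ (M.ρ g) (M.ρ g) = (χ g : K) • B := by
    apply LinearMap.ext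
    intro x
    apply LinearMap.ext
    intro y
    exact eqv g x y
  rw [h2, map_smul] at h1
  have h3 := congrArg Matrix.det h1
  rw [Matrix.det_smul, Matrix.det_mul, Matrix.det_mul, Matrix.det_transpose,
    LinearMap.det_toMatrix, Fintype.card_fin] at h3
  have h4 : ((χ g : K) ^ finrank K M.V - LinearMap.det (M.ρ g) ^ 2) *
      (LinearMap.toMatrix₂ b b B).det = 0 := by
    rw [sub_mul, h3]
    ring
  rcases mul_eq_zero.1 h4 with h4 | h4
  · exact (sub_eq_zero.1 h4).symm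
  · exact absurd h4 hQ

theorem potIso_of {M M' : FRep K Γ} {B : M.V →ₗ[K] M.V →ₗ[K] K}
    (nd : ∀ x, (∀ y, B x y = 0) → x = 0)
    (eqv : ∀ g x y, B (M.ρ g x) (M.ρ g y) = (χ g : K) * B x y)
    {B' : M'.V →ₗ[K] M'.V →ₗ[K] K} (nd' : ∀ x, (∀ y, B' x y = 0) → x = 0)
    (eqv' : ∀ g x y, B' (M'.ρ g x) (M'.ρ g y) = (χ g : K) * B' x y) (h : IsoUpTo M M') :
    PotIso M M' := by
  classical
  obtain ⟨ψ, ε, hψ⟩ := h
  by_cases h0 : ∀ x : M.V, x = 0
  · refine ⟨⊤, inferInstance, ψ, fun g _ x => ?_⟩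
    rw [h0 x, map_zero, map_zero, map_zero]
  push Not at h0
  obtain ⟨x₀, hx₀⟩ := h0
  have hinj : ∀ g x, M'.ρ g x = 0 → x = 0 := by
    intro g x hx
    rw [← M'.inv_left g x, hx, map_zero]
  have hy₀ : ψ x₀ ≠ 0 := fun h => hx₀ ((LinearEquiv.map_eq_zero_iff ψ).1 h)
  have hmul : ∀ g g', ε (g * g') = ε g * ε g' := by
    intro g g'
    have h1 := hψ (g * g') x₀
    have h2 : M.ρ (g * g') x₀ = M.ρ g (M.ρ g' x₀) := by rw [map_mul]; rfl
    have h3 : M'.ρ (g * g') (ψ x₀) = M'.ρ g (M'.ρ g' (ψ x₀)) := by rw [map_mul]; rfl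
    rw [h2, hψ, hψ, map_smul, ← h3, smul_smul] at h1
    have h4 : (ε g * ε g' - ε (g * g')) • M'.ρ (g * g') (ψ x₀) = 0 := by
      rw [sub_smul, h1, sub_self]
    rcases smul_eq_zero.1 h4 with h4 | h4
    · exact (sub_eq_zero.1 h4).symm
    · exact absurd (hinj _ _ h4) hy₀
  have hone : ε 1 = 1 := by
    have h1 := hψ 1 x₀
    rw [map_one, map_one] at h1
    have h4 : (1 - ε 1) • ψ x₀ = 0 := by
      rw [sub_smul, one_smul]
      exact sub_eq_zero.2 h1
    rcases smul_eq_zero.1 h4 with h4 | h4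
    · exact (sub_eq_zero.1 h4).symm
    · exact absurd h4 hy₀
  let E₀ : Γ →* K := ⟨⟨ε, hone⟩, hmul⟩
  let E : Γ →* Kˣ := E₀.toHomUnits
  have hE : ∀ g, (E g : K) = ε g := fun g => rfl
  have hn : finrank K M.V ≠ 0 := by
    intro h
    rw [finrank_eq_zero_iff_of_free] at h
    exact hx₀ (Subsingleton.elim _ _)
  have hpow : ∀ g, ε g ^ (2 * finrank K M.V) = 1 := by
    intro g
    have h1 : LinearMap.det (M.ρ g) = ε g ^ finrank K M.V * LinearMap.det (M'.ρ g) := by
      have h2 : (ψ : M.V →ₗ[K] M'.V) ∘ₗ M.ρ g ∘ₗ (ψ.symm : M'.V →ₗ[K] M.V) = ε g • M'.ρ g := by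
        apply LinearMap.ext
        intro y
        change ψ (M.ρ g (ψ.symm y)) = ε g • M'.ρ g y
        rw [hψ, LinearEquiv.apply_symm_apply]
      have h3 := LinearMap.det_conj (M.ρ g) ψ
      rw [h2, LinearMap.det_smul, ← LinearEquiv.finrank_eq ψ] at h3
      exact h3.symm
    have h2 := det_sq nd eqv g
    have h3 := det_sq nd' eqv' g
    rw [← LinearEquiv.finrank_eq ψ] at h3
    rw [h1, mul_pow, h3] at h2
    have h4 : (χ g : K) ^ finrank K M.V ≠ 0 := pow_ne_zero _ (Units.ne_zero _)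
    rw [mul_comm 2, pow_mul]
    exact mul_right_cancel₀ h4 (h2.trans (one_mul _).symm)
  have : NeZero (2 * finrank K M.V) := ⟨by omega⟩
  have hfin : Finite E.range := by
    have h1 : (E.range : Set Kˣ) ⊆ (rootsOfUnity (2 * finrank K M.V) K : Set Kˣ) := by
      rintro _ ⟨g, rfl⟩
      change E g ∈ rootsOfUnity _ K
      rw [mem_rootsOfUnity]
      apply Units.ext
      rw [Units.val_pow_eq_pow_val, hE, Units.val_one]
      exact hpow g
    have h3 : Finite (rootsOfUnity (2 * finrank K M.V) K) := inferInstance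
    have h2 : ((rootsOfUnity (2 * finrank K M.V) K : Subgroup Kˣ) : Set Kˣ).Finite :=
      Set.finite_coe_iff.1 h3
    exact (h2.subset h1).to_subtype
  refine ⟨E.ker, Subgroup.finiteIndex_ker E, ψ, fun g hg x => ?_⟩
  have h1 : ε g = 1 := by
    rw [← hE, MonoidHom.mem_ker.1 hg, Units.val_one]
  rw [hψ, h1, one_smul]

variable [CharZero K] [IsAlgClosed K]

/-- the decomposition of the product -/
theorem exists_dec {J : Type} {T : J → FRep K Γ} {A : FRep K Γ} (hA : IsSumOf T A) (B : FRep K Γ) :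
    ∃ (S : Set J) (_ : S.Finite) (d : Dec (fun j : S => T j) B (prod A B)),
      d.r₀ = LinearMap.snd K A.V B.V := by
  classical
  obtain ⟨P, hP, c, e, Δ, hΔ, he⟩ := hA
  let c' : P → Set.range c := fun p => ⟨c p, p, rfl⟩
  have he' : ∀ g ∈ Δ, ∀ x, e (A.ρ g x) = fun p => (T (c p)).ρ g (e x p) :=
    fun g hg x => funext fun p => he g hg x p
  refine ⟨Set.range c, Set.finite_range c,
    { P := P
      c := c'
      i := fun p => LinearMap.inl K A.V B.V ∘ₗ e.symm.toLinearMap ∘ₗ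
        LinearMap.single K (fun p => (T (c p)).V) p
      r := fun p => LinearMap.proj p ∘ₗ e.toLinearMap ∘ₗ LinearMap.fst K A.V B.V
      i₀ := LinearMap.inr K A.V B.V
      r₀ := LinearMap.snd K A.V B.V
      ri := ?_
      ri₀ := fun x => rfl
      sum := ?_
      Δ := Δ
      fi := hΔ
      i_eqv := ?_
      r_eqv := ?_
      i₀_eqv := ?_
      r₀_eqv := ?_ }, rfl⟩
  · intro p x
    change e (e.symm (Pi.single p x)) p = x
    rw [e.apply_symm_apply, Pi.single_eq_same]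
  · intro w
    have h1 : ∑ p, (Pi.single p (e w.1 p) : ∀ p, (T (c p)).V) = e w.1 :=
      Finset.univ_sum_single (e w.1)
    have h2 : ∑ p, (e.symm (Pi.single p (e w.1 p)) : A.V) = w.1 := by
      rw [← map_sum, h1, e.symm_apply_apply]
    have h3 : ∑ p, ((e.symm (Pi.single p (e w.1 p)), 0) : A.V × B.V) = (w.1, 0) := by
      have h4 := map_sum (LinearMap.inl K A.V B.V) (fun p => e.symm (Pi.single p (e w.1 p))) univ
      rw [h2] at h4
      exact h4.symm
    refine (congrArg (fun z : A.V × B.V => ((0, w.2) : A.V × B.V) + z) h3).trans ?_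
    rw [Prod.mk_add_mk, zero_add, add_zero]
    rfl
  · intro g hg p x
    change ((e.symm (Pi.single p ((T (c p)).ρ g x)), 0) : A.V × B.V) =
      (A.ρ g (e.symm (Pi.single p x)), B.ρ g 0)
    rw [map_zero]
    congr 1
    apply e.injective
    rw [e.apply_symm_apply, he' g hg, e.apply_symm_apply]
    funext q
    by_cases hq : q = p
    · subst hq
      rw [Pi.single_eq_same, Pi.single_eq_same]
    · rw [Pi.single_eq_of_ne hq, Pi.single_eq_of_ne hq, map_zero]
  · intro g hg p w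
    exact he g hg w.1 p
  · intro g hg x
    change ((0, B.ρ g x) : A.V × B.V) = (A.ρ g 0, B.ρ g x)
    rw [map_zero]
  · intro g hg w
    rfl

/-- **The Tate conjecture for the product.** -/
theorem tate_iff {J : Type} {T : J → FRep K Γ} {A B : FRep K Γ}
    {C : ∀ a, Submodule K (Cl (prod A B) a)} {C' : ∀ a, Submodule K (Cl B a)}
    (hT : ∀ j, IsSymplectic χ (T j)) (hF : ∀ j, SpFull (T j))
    (hiso : ∀ i j, i ≠ j → ¬PotIso (T i) (T j)) (hA : IsSumOf T A)
    (hB : HasPieces (fun U => ∀ j, SpSmall (T j) U) B) (hC : Cycles χ A B C C') {n : ℕ}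
    (hn : TateUpTo χ B C' n) : TateUpTo χ (prod A B) C n := by
  classical
  intro a ha f hf
  obtain ⟨S, hS, d, hd⟩ := exists_dec hA B
  obtain ⟨m, M, hM, hgen⟩ := hB
  have : Fintype S := hS.fintype
  choose b hb1 hb2 hb3 using fun j => (hT j).form
  let sy : ∀ j, Sy χ (T j) := fun j =>
    { B := b j
      alt := fun x y => by
        have h1 := hb1 j (x + y)
        rw [map_add, map_add, LinearMap.add_apply, LinearMap.add_apply, hb1 j x, hb1 j y,
          zero_add, add_zero] at h1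
        exact eq_neg_of_add_eq_zero_right h1
      nd := hb2 j
      eqv := hb3 j
      si := (hT j).irreducible
      full := hF j }
  refine tate_dec (T := fun j : S => T j) (M := M) hC.fundamental hC.divisors hC.intersection hgen
    (fun j => sy j) (fun i j hij h => hiso i j (fun h' => hij (Subtype.ext h'))
      (potIso_of (hb2 i) (hb3 i) (hb2 j) (hb3 j) h)) (fun j a => hM a j) d ?_ hf
  intro b hb f hf
  rw [hd]
  exact hC.pull b f (hn b (hb.trans ha) f hf)

/-- the converse -/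
theorem tate_conv {A B : FRep K Γ} {C : ∀ a, Submodule K (Cl (prod A B) a)}
    {C' : ∀ a, Submodule K (Cl B a)} (hC : Cycles χ A B C C') {n : ℕ}
    (hn : TateUpTo χ (prod A B) C n) : TateUpTo χ B C' n := by
  intro a ha f hf
  obtain ⟨Δ, hΔ, hf⟩ := hf
  have h1 := hn a ha (f.compLinearMap (LinearMap.snd K A.V B.V))
    ⟨Δ, hΔ, fun g hg v => hf g hg fun s => (v s).2⟩
  exact hC.restrict a _ h1

/-- **Abelian varieties of dimension at most three.** -/
theorem tate_low {A B : FRep K Γ} {C : ∀ a, Submodule K (Cl (prod A B) a)}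
    {C' : ∀ a, Submodule K (Cl B a)} (hC : Cycles χ A B C C') (hL : LowCycles χ B C') {d : ℕ}
    (hd : finrank K B.V = 2 * d) (h3 : d ≤ 3) (n : ℕ) : TateUpTo χ B C' n := by
  intro a _ f hf
  have hvan : d < a → f = 0 := by
    intro hda
    apply AlternatingMap.ext
    intro v
    rw [AlternatingMap.zero_apply]
    refine f.map_linearDependent v fun h => ?_
    have h1 := h.fintype_card_le_finrank
    rw [Fintype.card_fin] at h1
    omega
  obtain ⟨Δ, hΔ, hf'⟩ := hf
  have h1 : IsTate χ (prod A B) a (f.compLinearMap (LinearMap.snd K A.V B.V)) :=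
    ⟨Δ, hΔ, fun g hg v => hf' g hg fun s => (v s).2⟩
  by_cases hda : d < a
  · rw [hvan hda]
    exact zero_mem _
  rcases Nat.lt_or_ge a 2 with h2 | h2
  · rcases Nat.lt_or_ge a 1 with h0 | h0
    · obtain rfl : a = 0 := by omega
      exact hC.restrict 0 _ (hC.fundamental (f.compLinearMap (LinearMap.snd K A.V B.V)))
    · obtain rfl : a = 1 := by omega
      exact hC.restrict 1 _ (hC.divisors _ h1)
  · by_cases had : a = d
    · exact hL.points a (by rw [hd, had]) f
    · exact hL.curves a (by rw [hd]; omega) f ⟨Δ, hΔ, hf'⟩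

theorem sp_of_dim {T U : FRep K Γ} (h : SmallDim T U) : SpSmall T U := by
  rcases h with ⟨⟨μ, B, h1, h2, h3⟩, h4⟩ | ⟨⟨μ, B, h1, h2, h3⟩, h4⟩ | h
  · exact Or.inr (Or.inr ⟨⟨μ, B, h1, h2, h3⟩, h4⟩)
  · exact Or.inr (Or.inl ⟨⟨μ, B, h1, h2, h3⟩, h4⟩)
  · exact Or.inl (Or.inr (Or.inr (Or.inr h)))

theorem sp_of_inertia {T U : FRep K Γ} (h : SmallInertia T U) : SpSmall T U := by
  obtain ⟨g, k, h1, h2, h3⟩ := h
  exact Or.inl (Or.inl ⟨g, k, h1, h2, h3⟩)

theorem sp_of_slopes {T U : FRep K Γ} (h : FewSlopes T U) : SpSmall T U := by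
  obtain ⟨v, F, ⟨h, c, h1, h2, h3⟩ | ⟨a, b, h1, h2, h3⟩⟩ := h
  · exact Or.inl (Or.inr (Or.inr (Or.inl ⟨v, F, h, c, h1, h2, h3⟩)))
  · exact Or.inl (Or.inr (Or.inl ⟨v, F, a, b, _, ⟨h1, h2, rfl⟩, h3⟩))

theorem HasPieces.mono {P Q : FRep K Γ → Prop} {B : FRep K Γ} (h : HasPieces P B)
    (hPQ : ∀ U, P U → Q U) : HasPieces Q B := by
  obtain ⟨m, M, h1, h2⟩ := h
  exact ⟨m, M, fun a => hPQ _ (h1 a), h2⟩

end Pool.Agent.Q71.AB
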