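import Pool.Agent.Q71.SP.App

/-!
# The Lie algebra of a family of representations of symplectic type and a small representation
-/

set_option linter.unusedSectionVars false

namespace Pool.Agent.Q71.AB

open Module Finset Function Pool.Agent.TH118.SG Pool.Agent.TH125.Gal Pool.Agent.Y127.G
  Pool.Agent.Y127.C Pool.Agent.Q71.SP

variable {K : Type} [Field K] [CharZero K] [IsAlgClosed K] {Γ : Type} [Group Γ]

/-- A representation of symplectic type: an alternating form which is invariant up to the character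
`χ`, strongly irreducible, with a full Lie algebra. -/
structure Sy (χ : Γ →* Kˣ) (M : FRep K Γ) where
  /-- the form -/
  B : M.V →ₗ[K] M.V →ₗ[K] K
  alt : ∀ x y, B x y = -B y x
  nd : ∀ x, (∀ y, B x y = 0) → x = 0
  eqv : ∀ g x y, B (M.ρ g x) (M.ρ g y) = (χ g : K) * B x y
  si : SI M.ρ
  full : SpFull M

/-- the representation is spanned by the images of the `M a` -/
def SpannedBy {m : ℕ} (M : Fin m → FRep K Γ) (N : FRep K Γ) : Prop :=
  ∀ x : N.V, x ∈ Submodule.span K {x | ∃ a, ∃ f : (M a).V →ₗ[K] N.V,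
    (∃ Δ : Subgroup Γ, Δ.FiniteIndex ∧ ∀ g ∈ Δ, ∀ y, f ((M a).ρ g y) = N.ρ g (f y)) ∧
      ∃ y, f y = x}

/-- the index set -/
inductive Jx (ι : Type) (m : ℕ) : Type
  | t (j : ι)
  | pc (a : Fin m)
  | cf (j : ι) (a : Fin m)
  | b
  | chi (n : ℕ)

/-- the family -/
def fam {ι : Type} {m : ℕ} (T : ι → FRep K Γ) (M : Fin m → FRep K Γ) (κ : ι → Fin m → Γ →* Kˣ)
    (χ : Γ →* Kˣ) (N : FRep K Γ) : Jx ι m → FRep K Γ
  | .t j => T j
  | .pc a => M a
  | .cf j a => line (κ j a)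
  | .b => N
  | .chi n => line (χ ^ n)

/-- **The operators.** -/
theorem exists_D {ι : Type} [Fintype ι] {m : ℕ} {T : ι → FRep K Γ} {M : Fin m → FRep K Γ}
    {χ : Γ →* Kˣ} {N₀ : FRep K Γ} (hgen : SpannedBy M N₀) (hT : ∀ j, Sy χ (T j))
    (hiso : ∀ i j, i ≠ j → ¬IsoUpTo (T i) (T j)) (hM : ∀ j a, SpSmall (T j) (M a)) :
    ∃ κ : ι → Fin m → Γ →* Kˣ, ∀ (i : ι) (X : Module.End K (T i).V), Skew (hT i).B X →
      ∃ D ∈ GG (fam T M κ χ N₀), D (Jx.t i) = X ∧ (∀ j, j ≠ i → D (Jx.t j) = 0) ∧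
        D Jx.b = 0 ∧ ∀ n, D (Jx.chi n) = 0 := by
  classical
  -- the characters of the forms
  have hκ : ∀ i a, ∃ κ : Γ →* Kˣ,
      (SpWit (T i) (M a) ∨
      (∃ B : (M a).V →ₗ[K] (M a).V →ₗ[K] K, (∀ x y, B x y = (1 : K) * B y x) ∧
        (∀ x, (∀ y, B x y = 0) → x = 0) ∧
        (∀ g x y, B ((M a).ρ g x) ((M a).ρ g y) = (κ g : K) * B x y) ∧
        finrank K (M a).V ≤ finrank K (T i).V) ∨
      (∃ B : (M a).V →ₗ[K] (M a).V →ₗ[K] K, (∀ x y, B x y = (-1 : K) * B y x) ∧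
        (∀ x, (∀ y, B x y = 0) → x = 0) ∧
        (∀ g x y, B ((M a).ρ g x) ((M a).ρ g y) = (κ g : K) * B x y) ∧
        finrank K (M a).V < finrank K (T i).V)) := by
    intro i a
    rcases hM i a with h1 | ⟨⟨μ, B, h1, h2, h3⟩, h4⟩ | ⟨⟨μ, B, h1, h2, h3⟩, h4⟩
    · exact ⟨1, Or.inl h1⟩
    · exact ⟨μ, Or.inr (Or.inl ⟨B, h1, h2, h3, h4⟩)⟩
    · exact ⟨μ, Or.inr (Or.inr ⟨B, h1, h2, h3, h4⟩)⟩
  choose κ hκ using hκ
  refine ⟨κ, fun i X hX => ?_⟩
  let N : Jx ι m → FRep K Γ := fam T M κ χ N₀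
  let fr : ∀ j, Frm N (Jx.t j) := fun j => ⟨(hT j).B, fun g => (χ g : K), (hT j).eqv,
    Jx.chi 1, line_finrank _, fun g x => by
      change (((χ ^ 1 : Γ →* Kˣ) g : Kˣ) : K) • x = _
      rw [MonoidHom.pow_apply, _root_.pow_one]⟩
  have hoS : ∀ j, ∃ o : SFul N (Jx.t j), o.toFrm = fr j := fun j =>
    exists_SFul (N := N) (t := Jx.t j) (hT j).alt (hT j).nd (hT j).si (hT j).full
  have hmem : ∀ j, ∃ o : Smp N (Jx.t j), o.S = SkewS (hT j).B := by
    intro j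
    obtain ⟨o, ho⟩ := hoS j
    exact ⟨ofSFul o, congrArg (fun f : Frm N (Jx.t j) => SkewS f.B) ho⟩
  choose o ho using hmem
  have hgoodT : ∀ j, j ≠ i → Good N (Jx.t i) (Jx.t j) := by
    intro j hj
    obtain ⟨p, -⟩ := hoS i
    obtain ⟨p', -⟩ := hoS j
    exact p.good_of_not_iso p' (hiso j i hj)
  have hgoodM : ∀ a, Good N (Jx.t i) (Jx.pc a) := by
    intro a
    obtain ⟨p, -⟩ := hoS i
    rcases hκ i a with h1 | ⟨B, h1, h2, h3, h4⟩ | ⟨B, h1, h2, h3, h4⟩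
    · exact p.good_of_wit (a := Jx.pc a) h1
    · exact p.good_of_sym (a := Jx.pc a) ⟨B, fun g => (κ i a g : K), h3, Jx.cf i a,
        line_finrank _, fun g x => rfl⟩ (fun x y => (h1 x y).trans (one_mul _)) h2 h4
    · exact p.good_of_alt (a := Jx.pc a) ⟨B, fun g => (κ i a g : K), h3, Jx.cf i a,
        line_finrank _, fun g x => rfl⟩ (fun x y => (h1 x y).trans (neg_one_mul _)) h2 h4
  -- an operator which kills the other members
  obtain ⟨D, hD, hD0, hDt⟩ := (o i).good_finset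
    ((univ.filter (· ≠ i)).image Jx.t ∪ (univ : Finset (Fin m)).image Jx.pc) (by
      intro a ha
      rcases Finset.mem_union.1 ha with ha | ha
      · obtain ⟨j, hj, rfl⟩ := Finset.mem_image.1 ha
        exact hgoodT j (Finset.mem_filter.1 hj).2
      · obtain ⟨a, -, rfl⟩ := Finset.mem_image.1 ha
        exact hgoodM a) (X := X) (by rw [ho]; exact hX)
  have hDG := GG1_le hD
  have hDT : ∀ j, j ≠ i → D (Jx.t j) = 0 := fun j hj => hD0 _ (Finset.mem_union_left _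
    (Finset.mem_image.2 ⟨j, Finset.mem_filter.2 ⟨Finset.mem_univ _, hj⟩, rfl⟩))
  have hDM : ∀ a, D (Jx.pc a) = 0 := fun a => hD0 _ (Finset.mem_union_right _
    (Finset.mem_image.2 ⟨a, Finset.mem_univ _, rfl⟩))
  have hDc : ∀ n, D (Jx.chi n) = 0 := fun n => GG1_line hD (line_finrank _).le
  refine ⟨D, hDG, hDt, hDT, ?_, hDc⟩
  apply LinearMap.ext
  intro x
  rw [LinearMap.zero_apply]
  have hx := hgen x
  induction hx using Submodule.span_induction with
  | mem x hx =>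
    obtain ⟨a, f, ⟨Δ, hΔ, hf⟩, y, rfl⟩ := hx
    have h2 := lin_der (N := N) (a := Jx.pc a) (c := Jx.b) f hΔ hf hDG y
    rw [hDM] at h2
    exact h2.symm.trans (map_zero f)
  | zero => exact map_zero _
  | add x y _ _ hx hy => rw [map_add, hx, hy, add_zero]
  | smul c x _ hx => rw [map_smul, hx, smul_zero]

end Pool.Agent.Q71.AB
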