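import Pool.Agent.Q71.AB.Cup

/-!
# Tate classes on the product
-/

set_option linter.unusedSectionVars false

namespace Pool.Agent.Q71.AB

open Module Finset Function Pool.Agent.TH118.SG Pool.Agent.TH125.Gal Pool.Agent.Y127.G
  Pool.Agent.Y127.C Pool.Agent.Q71.SP TensorProduct MultilinearMap

variable {K : Type} [Field K] {Γ : Type} [Group Γ] {W : FRep K Γ} {χ : Γ →* Kˣ}
  {C : ∀ a, Submodule K (Cl W a)}

theorem isTate_alt {S : Type} {n : ℕ} {F : MultilinearMap K (fun _ : S => W.V) K}
    (hF : SemiF χ W n F) (e : S ≃ Fin (2 * n)) :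
    IsTate χ W n (alternatization (F.domDomCongr e)) := by
  obtain ⟨Δ, hΔ, hF⟩ := hF
  refine ⟨Δ, hΔ, fun g hg v => ?_⟩
  rw [alternatization_apply, alternatization_apply, Finset.mul_sum]
  refine Finset.sum_congr rfl fun σ _ => ?_
  have h1 := hF g hg fun i => v (σ (e i))
  have h2 : (domDomCongr σ (domDomCongr e F)) (fun s => W.ρ g (v s)) =
      F (fun i => W.ρ g (v (σ (e i)))) := rfl
  have h3 : (domDomCongr σ (domDomCongr e F)) v = F (fun i => v (σ (e i))) := rfl
  rw [h2, h3, h1, mul_smul_comm]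

/-- removing the first pair -/
def pairEquiv (a : ℕ) : Fin 2 ⊕ (Fin a × Fin 2) ≃ Fin (a + 1) × Fin 2 where
  toFun := Sum.elim (fun t => (0, t)) (fun p => (p.1.succ, p.2))
  invFun := fun p => Fin.cases (Sum.inl p.2) (fun l => Sum.inr (l, p.2)) p.1
  left_inv := by
    rintro (t | ⟨l, t⟩) <;> rfl
  right_inv := by
    rintro ⟨l, t⟩
    refine Fin.cases ?_ (fun l => ?_) l <;> rfl

section

variable (hC0 : ∀ f, f ∈ C 0) (hC1 : ∀ f, IsTate χ W 1 f → f ∈ C 1)
  (hmul : ∀ a b f g, f ∈ C a → g ∈ C b →
    ∀ e : Fin (2 * a) ⊕ Fin (2 * b) ≃ Fin (2 * (a + b)), (cup f g).domDomCongr e ∈ C (a + b))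

include hC0 hC1 hmul in
theorem pair_InC {Δ : Subgroup Γ} (hΔ : Δ.FiniteIndex) : ∀ (a : ℕ)
    (β : Fin a → W.V →ₗ[K] W.V →ₗ[K] K), (∀ l, SemiB χ W Δ (β l)) →
      InC C (pairProd (Equiv.refl (Fin a × Fin 2)) β) := by
  intro a
  induction a with
  | zero =>
    intro β _ n e
    have h1 := Fintype.card_congr e
    rw [Fintype.card_prod, Fintype.card_fin, Fintype.card_fin, Fintype.card_fin] at h1
    obtain rfl : n = 0 := by omega
    exact hC0 _
  | succ a ih =>
    intro β hβ
    have h1 : InC C (pairProd (Equiv.uniqueProd (Fin 2) (Fin 1)) fun _ : Fin 1 => β 0) := by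
      intro n e
      have h2 := Fintype.card_congr e
      rw [Fintype.card_fin, Fintype.card_fin] at h2
      obtain rfl : n = 1 := by omega
      refine hC1 _ (isTate_alt ⟨Δ, hΔ, fun g hg v => ?_⟩ e)
      exact pairProd_semi _ (fun _ => hβ 0) hg v
    have h2 := InC.mul (a := 1) (b := a) hmul h1 (ih (fun l => β l.succ) fun l => hβ _)
      (by rw [Fintype.card_fin]) (by
        rw [Fintype.card_prod, Fintype.card_fin, Fintype.card_fin, mul_comm])
    have h3 := h2.congr (pairEquiv a)
    have h4 : pairProd (Equiv.refl (Fin (a + 1) × Fin 2)) β =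
        (((LinearMap.mul' K K).compMultilinearMap
          ((pairProd (Equiv.uniqueProd (Fin 2) (Fin 1)) fun _ : Fin 1 => β 0).domCoprod
            (pairProd (Equiv.refl (Fin a × Fin 2)) fun l => β l.succ))).domDomCongr
              (pairEquiv a)) := by
      apply MultilinearMap.ext
      intro v
      have h5 : (((LinearMap.mul' K K).compMultilinearMap
          ((pairProd (Equiv.uniqueProd (Fin 2) (Fin 1)) fun _ : Fin 1 => β 0).domCoprod
            (pairProd (Equiv.refl (Fin a × Fin 2)) fun l => β l.succ))).domDomCongr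
              (pairEquiv a)) v =
          (∏ _l : Fin 1, β 0 (v (0, 0)) (v (0, 1))) *
            ∏ l : Fin a, β l.succ (v (l.succ, 0)) (v (l.succ, 1)) := rfl
      rw [h5, pairProd_apply, Fin.prod_univ_succ, Fin.prod_univ_one]
      rfl
    rw [h4]
    exact h3

variable [CharZero K] [IsAlgClosed K] {ι : Type} [Fintype ι] [DecidableEq ι] {m : ℕ}
  {T : ι → FRep K Γ} {M : Fin m → FRep K Γ} {N₀ : FRep K Γ}

include hC0 hC1 hmul in
/-- **Tate classes.** -/
theorem tate_dec (hgen : SpannedBy M N₀) (hT : ∀ j, Sy χ (T j))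
    (hiso : ∀ i j, i ≠ j → ¬IsoUpTo (T i) (T j)) (hM : ∀ j a, SpSmall (T j) (M a))
    (d : Dec T N₀ W) {n : ℕ}
    (hB : ∀ b ≤ n, ∀ f : Cl N₀ b, IsTate χ N₀ b f → f.compLinearMap d.r₀ ∈ C b)
    {f : Cl W n} (hf : IsTate χ W n f) : f ∈ C n := by
  classical
  let F : MultilinearMap K (fun _ : Fin (2 * n) => W.V) K := f.toMultilinearMap
  have hF : SemiF χ W n F := hf
  have hprod : ∀ {S₁ S₂ : Type} [Fintype S₁] [DecidableEq S₁] [Fintype S₂] [DecidableEq S₂]
      (_ : Fintype.card S₁ + Fintype.card S₂ = 2 * n)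
      (H : MultilinearMap K (fun _ : S₁ ⊕ S₂ => W.V) K), IsProd χ d n H → InC C H := by
    intro S₁ S₂ _ _ _ _ hcard H hH
    obtain ⟨a, e, β, g, hβ, hg, rfl⟩ := hH
    have h1 : Fintype.card S₁ = 2 * a := by
      rw [← Fintype.card_congr e, Fintype.card_prod, Fintype.card_fin, Fintype.card_fin, mul_comm]
    have h2 : Fintype.card S₂ = 2 * (n - a) := by omega
    refine InC.mul hmul ?_ ?_ h1 h2
    · exact (pair_InC hC0 hC1 hmul d.fi a β hβ).congr e
    · intro b e'
      obtain rfl : b = n - a := by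
        have h3 := Fintype.card_congr e'
        rw [h2, Fintype.card_fin] at h3
        omega
      have h4 := hB (n - a) (Nat.sub_le _ _) _ (isTate_alt hg e')
      rw [← alt_comp] at h4
      exact h4
  have hcol : ∀ o : Fin (2 * n) → Option d.P, InC C (F.compLinearMap fun s => d.pr (o s)) := by
    intro o
    let p : Fin (2 * n) → Prop := fun s => ∃ q, o s = some q
    let E : {s // p s} ⊕ {s // ¬p s} ≃ Fin (2 * n) := Equiv.sumCompl p
    choose q hq using fun s : {s // p s} => s.2
    have hF' : SemiF χ W n (F.domDomCongr E.symm) := by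
      obtain ⟨Δ, hΔ, h⟩ := hF
      exact ⟨Δ, hΔ, fun g hg v => h g hg _⟩
    have hcard : Fintype.card {s // p s} + Fintype.card {s // ¬p s} = 2 * n := by
      rw [← Fintype.card_sum, Fintype.card_congr E, Fintype.card_fin]
    have h1 := core_split hgen hT hiso hM d (n := n) (by omega) hF' q
    have h2 := (InC.span (fun H hH => hprod hcard H hH) h1).congr E
    have h3 : F.compLinearMap (fun s => d.pr (o s)) =
        (((F.domDomCongr E.symm).compLinearMap (fun s =>
          d.pr (Sum.elim (fun s => some (q s)) (fun _ => none) s))).domDomCongr E) := by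
      apply MultilinearMap.ext
      intro v
      change F (fun s => d.pr (o s) (v s)) = F (fun s =>
        d.pr (Sum.elim (fun s => some (q s)) (fun _ => none) (E.symm s)) (v (E (E.symm s))))
      congr 1
      funext s
      rw [E.apply_symm_apply]
      congr 2
      obtain ⟨s', rfl⟩ := E.surjective s
      rw [E.symm_apply_apply]
      rcases s' with s' | s'
      · exact hq s'
      · change o s'.1 = none
        by_contra h
        obtain ⟨q', hq'⟩ := Option.ne_none_iff_exists'.1 h
        exact s'.2 ⟨q', hq'⟩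
    rw [h3]
    exact h2
  have hsum : F = ∑ o : Fin (2 * n) → Option d.P, F.compLinearMap fun s => d.pr (o s) := by
    apply MultilinearMap.ext
    intro v
    rw [_root_.sum_apply]
    have h1 := F.map_sum (fun s (o : Option d.P) => d.pr o (v s))
    refine Eq.trans ?_ h1
    congr 1
    funext s
    exact (d.sum_pr (v s)).symm
  have h1 : InC C F := by
    rw [hsum]
    exact InC.sum fun o _ => hcol o
  have h2 := h1 n (Equiv.refl _)
  have h3 : alternatization (F.domDomCongr (Equiv.refl (Fin (2 * n)))) =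
      ((Fintype.card (Fin (2 * n))).factorial : K) • f := by
    have h4 := AlternatingMap.coe_alternatization f
    rw [Nat.cast_smul_eq_nsmul]
    exact h4
  rw [h3] at h2
  exact (Submodule.smul_mem_iff _ (Nat.cast_ne_zero.2 (Nat.factorial_ne_zero _))).1 h2

end

end Pool.Agent.Q71.AB
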