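import Pool.Agent.Y127.G.Tan

/-!
# The cohomology classes of abelian varieties: definitions

An abelian variety is given by its rational Tate module `V`, with coefficients in a field `K` and the
action `act` of the Galois group `Γ`; its cohomology in degree `n` is the space of the alternating
forms in `n` variables on `V`.
-/

set_option autoImplicit false

namespace Pool.Agent.Q71.AB.P

open Module Pool.Agent.Y127.G

variable {K : Type} [Field K] {V : Type} [AddCommGroup V] [Module K V] {V' : Type}
  [AddCommGroup V'] [Module K V'] {Γ : Type} [Group Γ]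

/-- the operator of a group element -/
def op (M : FRep K Γ) (g : Γ) : M.V →ₗ[K] M.V := M.ρ g

/-- the action -/
def act (M : FRep K Γ) (g : Γ) (x : M.V) : M.V := op M g x

/-- the cohomology classes of degree `2 a` -/
abbrev Cl (K : Type) [Field K] (V : Type) [AddCommGroup V] [Module K V] (a : ℕ) : Type :=
  V [⋀^Fin (2 * a)]→ₗ[K] K

/-- the exterior product of alternating forms -/
noncomputable def cup {S S' : Type} [Fintype S] [DecidableEq S] [Fintype S'] [DecidableEq S']
    (f : V [⋀^S]→ₗ[K] K) (g : V [⋀^S']→ₗ[K] K) : V [⋀^S ⊕ S']→ₗ[K] K :=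
  (LinearMap.mul' K K).compAlternatingMap (f.domCoprod g)

/-- A class of degree `2 a` is a Tate class if the elements of a subgroup of finite index act on it by
the power `χ ^ a` of the cyclotomic character. -/
def IsTate (χ : Γ →* Kˣ) (r : Γ → V → V) (a : ℕ) (f : Cl K V a) : Prop :=
  ∃ Δ : Subgroup Γ, Δ.FiniteIndex ∧ ∀ g ∈ Δ, ∀ v, f (fun s => r g (v s)) = (χ g : K) ^ a * f v

/-- all Tate classes of codimension `a` are in the space `C a` -/
def TateIn (χ : Γ →* Kˣ) (r : Γ → V → V) (C : ∀ a, Submodule K (Cl K V a)) (a : ℕ) : Prop :=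
  ∀ f, IsTate χ r a f → f ∈ C a

/-- closed under exterior products -/
def CupClosed (C : ∀ a, Submodule K (Cl K V a)) : Prop :=
  ∀ a b f g, f ∈ C a → g ∈ C b →
    ∀ e : Fin (2 * a) ⊕ Fin (2 * b) ≃ Fin (2 * (a + b)), (cup f g).domDomCongr e ∈ C (a + b)

/-- the pullbacks of the classes in `C'` are in `C` -/
def PullsTo (φ : V →ₗ[K] V') (C' : ∀ a, Submodule K (Cl K V' a))
    (C : ∀ a, Submodule K (Cl K V a)) : Prop :=
  ∀ a, ∀ f ∈ C' a, f.compLinearMap φ ∈ C a

/-- the action on the product -/
def prodAct (r : Γ → V → V) (r' : Γ → V' → V') (g : Γ) (x : V × V') : V × V' :=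
  (r g x.1, r' g x.2)

/-- The spaces `C a` and `C' a` spanned by the classes of the algebraic cycles of codimension `a` on
`A × B` and on `B`, where `A` and `B` have the Tate modules `V` and `V'`. -/
structure Cycles (χ : Γ →* Kˣ) (r : Γ → V → V) (r' : Γ → V' → V')
    (C : ∀ a, Submodule K (Cl K (V × V') a)) (C' : ∀ a, Submodule K (Cl K V' a)) : Prop where
  /-- the class of `A × B` -/
  fundamental : ∀ f, f ∈ C 0
  /-- the Tate conjecture for divisors on `A × B` (Tate, Zarhin, Faltings) -/
  divisors : TateIn χ (prodAct r r') C 1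
  /-- intersections of cycles -/
  intersection : CupClosed C
  /-- pullbacks by the projection to `B` -/
  pull : PullsTo (LinearMap.snd K V V') C' C
  /-- pullbacks by the zero section -/
  restrict : PullsTo (LinearMap.inr K V V') C C'

/-- All Tate classes of codimension at most `n` are combinations of classes of cycles. -/
def TateUpTo (χ : Γ →* Kˣ) (r : Γ → V → V) (C : ∀ a, Submodule K (Cl K V a)) (n : ℕ) : Prop :=
  ∀ a ≤ n, TateIn χ r C a

/-- The cycles of dimension at most one on the abelian variety `B`: the classes of points span the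
cohomology of highest degree, and the Tate conjecture is true for curves (by the hard Lefschetz
theorem and the Tate conjecture for divisors). -/
structure LowCycles (χ : Γ →* Kˣ) (r : Γ → V → V) (C : ∀ a, Submodule K (Cl K V a)) : Prop where
  points : ∀ a, finrank K V = 2 * a → ∀ f, f ∈ C a
  curves : ∀ a, finrank K V = 2 * (a + 1) → TateIn χ r C a

end Pool.Agent.Q71.AB.P
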