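import Pool.Agent.Q71.AB.Core

/-!
# The decomposition of a semi-invariant form
-/

set_option linter.unusedSectionVars false

namespace Pool.Agent.Q71.AB

open Module Finset Function Pool.Agent.TH118.SG Pool.Agent.TH125.Gal Pool.Agent.Y127.G
  Pool.Agent.Y127.C Pool.Agent.Q71.SP TensorProduct

variable {K : Type} [Field K] {Γ : Type} [Group Γ]

/-- a bilinear form with the multiplier `χ` -/
def SemiB (χ : Γ →* Kˣ) (M : FRep K Γ) (Δ : Subgroup Γ) (β : M.V →ₗ[K] M.V →ₗ[K] K) : Prop :=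
  ∀ g ∈ Δ, ∀ x y, β (M.ρ g x) (M.ρ g y) = (χ g : K) * β x y

theorem pairProd_semi {χ : Γ →* Kˣ} {M : FRep K Γ} {Δ : Subgroup Γ} {S : Type} {a : ℕ}
    (e : Fin a × Fin 2 ≃ S) {β : Fin a → M.V →ₗ[K] M.V →ₗ[K] K} (hβ : ∀ l, SemiB χ M Δ (β l))
    {g : Γ} (hg : g ∈ Δ) (v : S → M.V) :
    pairProd e β (fun s => M.ρ g (v s)) = (χ g : K) ^ a * pairProd e β v := by
  rw [pairProd_apply, pairProd_apply, Finset.prod_congr rfl fun l _ => hβ l g hg _ _,
    Finset.prod_mul_distrib, Finset.prod_const, Finset.card_univ, Fintype.card_fin]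

/-- the generators -/
def IsProd {ι : Type} {T : ι → FRep K Γ} {N₀ W : FRep K Γ} (χ : Γ →* Kˣ) (d : Dec T N₀ W) (n : ℕ)
    {S₁ S₂ : Type} (H : MultilinearMap K (fun _ : S₁ ⊕ S₂ => W.V) K) : Prop :=
  ∃ (a : ℕ) (e : Fin a × Fin 2 ≃ S₁) (β : Fin a → W.V →ₗ[K] W.V →ₗ[K] K)
    (g : MultilinearMap K (fun _ : S₂ => N₀.V) K), (∀ l, SemiB χ W d.Δ (β l)) ∧
    SemiF χ N₀ (n - a) g ∧ H = (LinearMap.mul' K K).compMultilinearMap
      ((pairProd e β).domCoprod (g.compLinearMap fun _ => d.r₀))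

variable [CharZero K] [IsAlgClosed K] {ι : Type} [Fintype ι] [DecidableEq ι] {m : ℕ}
  {T : ι → FRep K Γ} {M : Fin m → FRep K Γ} {χ : Γ →* Kˣ} {N₀ W : FRep K Γ}

/-- **The decomposition.** -/
theorem core_split (hgen : SpannedBy M N₀) (hT : ∀ j, Sy χ (T j))
    (hiso : ∀ i j, i ≠ j → ¬IsoUpTo (T i) (T j)) (hM : ∀ j a, SpSmall (T j) (M a))
    (d : Dec T N₀ W) {S₁ S₂ : Type} [Fintype S₁] [DecidableEq S₁] [Fintype S₂] [DecidableEq S₂]
    {n : ℕ} (hn : Fintype.card S₁ ≤ 2 * n) {f : MultilinearMap K (fun _ : S₁ ⊕ S₂ => W.V) K}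
    (hf : SemiF χ W n f) (q : S₁ → d.P) :
    f.compLinearMap (fun s => d.pr (Sum.elim (fun s => some (q s)) (fun _ => none) s)) ∈
      Submodule.span K {H | IsProd χ d n H} := by
  classical
  obtain ⟨κ, hD⟩ := exists_D hgen hT hiso hM
  set o : S₁ ⊕ S₂ → Option d.P := Sum.elim (fun s => some (q s)) (fun _ => none) with ho
  set f₁ := f.compLinearMap (fun s => d.pr (o s)) with hf₁
  have hf₁a : ∀ v, f₁ v = f fun s => d.pr (o s) (v s) := fun v => rfl
  have hf₁b : ∀ v v', (∀ s, d.pr (o s) (v s) = d.pr (o s) (v' s)) → f₁ v = f₁ v' := by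
    intro v v' h
    rw [hf₁a, hf₁a]
    exact congrArg f (funext h)
  -- the form on the product of the spaces `T j`
  let θ : d.P → (∀ j, (T j).V) →ₗ[K] W.V := fun p => d.i p ∘ₗ LinearMap.proj (d.c p)
  have hθ : ∀ p t, θ p t = d.i p (t (d.c p)) := fun p t => rfl
  let F : MultilinearMap K (fun _ : S₁ => ∀ j, (T j).V) (MultilinearMap K (fun _ : S₂ => W.V) K) :=
    (f₁.currySum).compLinearMap fun s => θ (q s)
  have hFa : ∀ t y, F t y = f₁ (Sum.elim (fun s => θ (q s) (t s)) y) := fun t y => rfl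
  have hgenF := fft_pi (T := fun j => (T j).V) (B := fun j => (hT j).B) (fun j => (hT j).alt)
    (fun j => (hT j).nd) (fun s => d.c (q s)) F (fun t => by
      apply MultilinearMap.ext
      intro y
      rw [hFa, hFa]
      congr 2
      funext s
      rw [hθ, hθ, Pi.single_eq_same]) (fun i X hX t => by
      apply MultilinearMap.ext
      intro y
      obtain ⟨D, hDG, hDi, hDj, hDb, hDn⟩ := hD i X hX
      have h1 := d.kill_W M κ χ hf hDG (hDn n) o (Sum.elim (fun s => θ (q s) (t s)) y)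
      rw [Fintype.sum_sum_type] at h1
      have h2 : ∑ s : S₂, f (fun x => d.pr (o x) (update (Sum.elim (fun s => θ (q s) (t s)) y)
          (Sum.inr s) (d.inc M κ χ (o (Sum.inr s)) (D (d.sl m (o (Sum.inr s)))
          (d.prj M κ χ (o (Sum.inr s)) (Sum.elim (fun s => θ (q s) (t s)) y (Sum.inr s))))) x)) = 0 := by
        refine Finset.sum_eq_zero fun s _ => ?_
        refine f.map_coord_zero (Sum.inr s) ?_
        rw [update_self]
        change d.pr none (d.i₀ (D Jx.b (d.r₀ (y s)))) = 0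
        have h5 : (D Jx.b (d.r₀ (y s)) : N₀.V) = 0 := by rw [hDb]; rfl
        exact (congrArg (fun z : N₀.V => d.pr none (d.i₀ z)) h5).trans
          ((congrArg (d.pr none) (map_zero d.i₀)).trans (map_zero _))
      rw [h2, add_zero] at h1
      rw [_root_.sum_apply, _root_.zero_apply]
      refine Eq.trans (Finset.sum_congr rfl fun s _ => ?_) h1
      rw [hFa]
      have h3 : Sum.elim (fun x => θ (q x) (update t s (Pi.single i (X (t s i))) x)) y =
          update (Sum.elim (fun s => θ (q s) (t s)) y) (Sum.inl s)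
            (θ (q s) (Pi.single i (X (t s i)))) := by
        rw [Sum.update_elim_inl]
        congr 1
        funext x
        by_cases hx : x = s
        · subst hx; rw [update_self, update_self]
        · rw [update_of_ne hx, update_of_ne hx]
      rw [h3, hf₁a]
      congr 1
      funext x
      congr 2
      change θ (q s) (Pi.single i (X (t s i))) = d.i (q s) (D (Jx.t (d.c (q s)))
        (d.r (q s) (θ (q s) (t s))))
      rw [hθ, hθ, d.ri]
      by_cases hi : d.c (q s) = i
      · subst hi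
        rw [Pi.single_eq_same, hDi]
        rfl
      · rw [Pi.single_eq_of_ne hi, hDj _ hi]
        rfl)
  -- the form in terms of `F`
  let φ : d.P → (W.V →ₗ[K] ∀ j, (T j).V) := fun p => LinearMap.single K _ (d.c p) ∘ₗ d.r p
  have hφ : ∀ p w, φ p w = Pi.single (d.c p) (d.r p w) := fun p w => rfl
  have hFφ : ∀ x y, f₁ (Sum.elim x y) = F (fun s => φ (q s) (x s)) y := by
    intro x y
    rw [hFa]
    refine hf₁b _ _ fun s => ?_
    rcases s with s | s
    · change d.pr (some (q s)) (x s) = d.pr (some (q s)) (θ (q s) (φ (q s) (x s)))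
      have h5 : θ (q s) (φ (q s) (x s)) = d.pr (some (q s)) (x s) := by
        rw [hθ, hφ, Pi.single_eq_same]
        rfl
      rw [h5, d.pr_pr]
    · rfl
  have hy : ∀ x y, f₁ (Sum.elim x y) = f₁ (Sum.elim x fun s => d.i₀ (d.r₀ (y s))) := by
    intro x y
    refine hf₁b _ _ fun s => ?_
    rcases s with s | s
    · rfl
    · exact (d.pr_pr none (y s)).symm
  -- a basis of the space of the products
  let 𝒢 : Set (MultilinearMap K (fun _ : S₁ => W.V) K) :=
    {G | ∃ (a : ℕ) (e : Fin a × Fin 2 ≃ S₁) (β : Fin a → W.V →ₗ[K] W.V →ₗ[K] K),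
      (∀ l, SemiB χ W d.Δ (β l)) ∧ G = pairProd e β}
  obtain ⟨b, hb𝒢, hbs, hbi⟩ := exists_linearIndependent K 𝒢
  have hrep : ∀ F' ∈ Submodule.span K {G : MultilinearMap K (fun _ : S₁ => ∀ j, (T j).V)
      (MultilinearMap K (fun _ : S₂ => W.V) K) | ∃ (a : ℕ) (e : Fin a × Fin 2 ≃ S₁)
      (w : MultilinearMap K (fun _ : S₂ => W.V) K), ∀ v, G v = pairProd e (fun l =>
        (sumForm fun j => (hT j).B).compl₁₂ (cmp (d.c (q (e (l, 0))))) (cmp (d.c (q (e (l, 1)))))) v
          • w}, ∃ w : b →₀ MultilinearMap K (fun _ : S₂ => W.V) K, ∀ x,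
          F' (fun s => φ (q s) (x s)) = w.sum fun G z => (G : MultilinearMap K _ K) x • z := by
    intro F' hF'
    induction hF' using Submodule.span_induction with
    | mem F' hF' =>
      obtain ⟨a, e, w₀, hw⟩ := hF'
      let β' : Fin a → W.V →ₗ[K] W.V →ₗ[K] K := fun l =>
        ((sumForm fun j => (hT j).B).compl₁₂ (cmp (d.c (q (e (l, 0))))) (cmp (d.c (q (e (l, 1))))
          )).compl₁₂ (φ (q (e (l, 0)))) (φ (q (e (l, 1))))
      have hβ' : ∀ l, SemiB χ W d.Δ (β' l) := by
        intro l g hg x y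
        have h5 : ∀ p (w : W.V), cmp (K := K) (d.c p) (φ p w) = Pi.single (d.c p) (d.r p w) := by
          intro p w
          rw [cmp_apply, hφ, Pi.single_eq_same]
        change sumForm _ (cmp _ (φ _ (W.ρ g x))) (cmp _ (φ _ (W.ρ g y))) =
          (χ g : K) * sumForm _ (cmp _ (φ _ x)) (cmp _ (φ _ y))
        rw [h5, h5, h5, h5, d.r_eqv g hg, d.r_eqv g hg, sumForm_single_left, sumForm_single_left]
        by_cases hc : d.c (q (e (l, 0))) = d.c (q (e (l, 1)))
        · have h6 : ∀ (j : ι) (hj : d.c (q (e (l, 0))) = j) (z : (T j).V),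
              (hT (d.c (q (e (l, 0))))).B ((T (d.c (q (e (l, 0))))).ρ g (d.r (q (e (l, 0))) x))
                ((Pi.single j ((T j).ρ g z) : ∀ j, (T j).V) (d.c (q (e (l, 0))))) =
              (χ g : K) * (hT (d.c (q (e (l, 0))))).B (d.r (q (e (l, 0))) x)
                ((Pi.single j z : ∀ j, (T j).V) (d.c (q (e (l, 0))))) := by
            rintro _ rfl z
            rw [Pi.single_eq_same, Pi.single_eq_same, (hT _).eqv]
          exact h6 _ hc _
        · rw [Pi.single_eq_of_ne hc, Pi.single_eq_of_ne hc, map_zero, map_zero, mul_zero]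
      have hmem : pairProd e β' ∈ Submodule.span K (Set.range (Subtype.val : b → _)) := by
        rw [Subtype.range_coe, hbs]
        exact Submodule.subset_span ⟨a, e, β', hβ', rfl⟩
      obtain ⟨cf, hcf⟩ := (Finsupp.mem_span_range_iff_exists_finsupp).1 hmem
      refine ⟨cf.mapRange (fun k => k • w₀) (zero_smul _ _), fun x => ?_⟩
      rw [Finsupp.sum_mapRange_index (fun _ => smul_zero _), hw]
      have h5 : pairProd e (fun l => (sumForm fun j => (hT j).B).compl₁₂
          (cmp (d.c (q (e (l, 0))))) (cmp (d.c (q (e (l, 1)))))) (fun s => φ (q s) (x s)) =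
          pairProd e β' x := rfl
      rw [h5, ← hcf, Finsupp.sum, Finsupp.sum, _root_.sum_apply, Finset.sum_smul]
      refine Finset.sum_congr rfl fun G _ => ?_
      rw [_root_.smul_apply, smul_eq_mul, mul_comm, mul_smul]
    | zero => exact ⟨0, fun x => by rw [Finsupp.sum_zero_index]; rfl⟩
    | add F' F'' _ _ h' h'' =>
      obtain ⟨w', h'⟩ := h'
      obtain ⟨w'', h''⟩ := h''
      refine ⟨w' + w'', fun x => ?_⟩
      rw [Finsupp.sum_add_index' (fun _ => smul_zero _) (fun _ _ _ => smul_add _ _ _), ← h', ← h'']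
      rfl
    | smul k F' _ h' =>
      obtain ⟨w', h'⟩ := h'
      refine ⟨k • w', fun x => ?_⟩
      rw [Finsupp.sum_smul_index' (fun _ => smul_zero _)]
      have h5 : (k • F') (fun s => φ (q s) (x s)) = k • F' (fun s => φ (q s) (x s)) := rfl
      rw [h5, h', Finsupp.smul_sum]
      exact Finsupp.sum_congr fun G _ => smul_comm _ _ _
  obtain ⟨w, hw⟩ := hrep F hgenF
  have hfw : ∀ x y, f₁ (Sum.elim x y) = w.sum fun G z => (G : MultilinearMap K _ K) x * z y := by
    intro x y
    rw [hFφ, hw, Finsupp.sum, Finsupp.sum, _root_.sum_apply]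
    rfl
  -- the coefficients are semi-invariant
  obtain ⟨Δ, hΔ, hf⟩ := hf
  haveI := d.fi
  have ha : ∀ G ∈ w.support, ∃ (a : ℕ) (e : Fin a × Fin 2 ≃ S₁)
      (β : Fin a → W.V →ₗ[K] W.V →ₗ[K] K), (∀ l, SemiB χ W d.Δ (β l)) ∧
      (G : MultilinearMap K (fun _ : S₁ => W.V) K) = pairProd e β := fun G _ => hb𝒢 G.2
  have hcard : ∀ (a : ℕ) (_ : Fin a × Fin 2 ≃ S₁), a = Fintype.card S₁ / 2 := by
    intro a e
    have h5 := Fintype.card_congr e
    rw [Fintype.card_prod, Fintype.card_fin, Fintype.card_fin] at h5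
    omega
  have hsemi : ∀ g ∈ Δ ⊓ d.Δ, ∀ G : b, ∀ y : S₂ → W.V, w G (fun s => W.ρ g (y s)) =
      (χ g : K) ^ (n - Fintype.card S₁ / 2) * w G y := by
    intro g hg G y
    let l : b →₀ K := w.mapRange (fun z => (χ g : K) ^ (Fintype.card S₁ / 2) *
      z (fun s => W.ρ g (y s)) - (χ g : K) ^ n * z y) (by simp)
    have hl : Finsupp.linearCombination K (Subtype.val : b → _) l = 0 := by
      apply MultilinearMap.ext
      intro x
      have h10 : l.sum (fun (G : b) (a : K) => a • (G : MultilinearMap K (fun _ : S₁ => W.V) K)) =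
          w.sum fun G z => ((χ g : K) ^ (Fintype.card S₁ / 2) *
            z (fun s => W.ρ g (y s)) - (χ g : K) ^ n * z y) •
            (G : MultilinearMap K (fun _ : S₁ => W.V) K) :=
        Finsupp.sum_mapRange_index (fun _ => zero_smul _ _)
      rw [Finsupp.linearCombination_apply, h10, Finsupp.sum, _root_.sum_apply]
      have h5 : f₁ (Sum.elim (fun s => W.ρ g (x s)) fun s => W.ρ g (y s)) =
          (χ g : K) ^ n * f₁ (Sum.elim x y) := by
        rw [hf₁a, hf₁a, ← hf g hg.1]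
        congr 1
        funext s
        rcases s with s | s
        · exact d.pr_eqv hg.2 (some (q s)) (x s)
        · exact d.pr_eqv hg.2 none (y s)
      rw [hfw, hfw, Finsupp.sum, Finsupp.sum, Finset.mul_sum, ← sub_eq_zero,
        ← Finset.sum_sub_distrib] at h5
      refine Eq.trans (Finset.sum_congr rfl fun G _ => ?_) h5
      obtain ⟨a, e, β, hβ, hG⟩ := hb𝒢 G.2
      rw [_root_.smul_apply, hG, pairProd_semi e hβ hg.2, ← hcard a e, smul_eq_mul]
      ring
    have h6 := (linearIndependent_iff.1 hbi) l hl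
    have h7 := DFunLike.congr_fun h6 G
    rw [Finsupp.mapRange_apply, Finsupp.zero_apply, sub_eq_zero] at h7
    have h8 : Fintype.card S₁ / 2 ≤ n := by omega
    have h9 : (χ g : K) ^ (Fintype.card S₁ / 2) ≠ 0 := pow_ne_zero _ (Units.ne_zero _)
    apply mul_left_cancel₀ h9
    rw [h7, ← mul_assoc, ← pow_add, Nat.add_sub_cancel' h8]
  -- the conclusion
  have hfin : f₁ = ∑ G ∈ w.support, (LinearMap.mul' K K).compMultilinearMap
      ((G : MultilinearMap K (fun _ : S₁ => W.V) K).domCoprod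
        (((w G).compLinearMap fun _ => d.i₀).compLinearMap fun _ => d.r₀)) := by
    apply MultilinearMap.ext
    intro v
    have h5 : v = Sum.elim (fun s => v (Sum.inl s)) (fun s => v (Sum.inr s)) := by
      funext s
      rcases s with s | s <;> rfl
    rw [_root_.sum_apply]
    conv_lhs => rw [h5, hy, hfw]
    rfl
  rw [hfin]
  refine Submodule.sum_mem _ fun G hG => Submodule.subset_span ?_
  obtain ⟨a, e, β, hβ, hGe⟩ := ha G hG
  refine ⟨a, e, β, (w G).compLinearMap fun _ => d.i₀, hβ, ?_, by rw [hGe]⟩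
  refine ⟨Δ ⊓ d.Δ, inferInstance, fun g hg y => ?_⟩
  have h11 := hsemi g hg G fun s => d.i₀ (y s)
  rw [hcard a e]
  change w G (fun s => d.i₀ (N₀.ρ g (y s))) =
    (χ g : K) ^ (n - Fintype.card S₁ / 2) * w G (fun s => d.i₀ (y s))
  rw [← h11]
  congr 1
  funext s
  exact d.i₀_eqv g hg.2 _

end Pool.Agent.Q71.AB
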